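import Pool.Agent.H64.NC.NSB
import Pool.Agent.H44.NR.Pdj
import Pool.Agent.H18.UP.Defs

/-!
# [H83 UP USO] THEOREM UP (MP_8f2e1c_an): the setting `US0` in the chart

`GA u T` (H64/NC/NSA): `u` has infinity in the interior of a trap, no neutral cycles in the plane, Fatou points = attracted points. `JC u`: the Julia set in the plane (compact: `GA.bd` with `n = 0`, `GA.cl`).
`uso_fc`. A critical point `c` of `Rf u` (finitely many: `crit_finite`): if `c ∈ JS` then `c ≠ ∞` (`GA.fi`) is a point `z` of `JC u` with `ww z = 0` (`crit_coe`). Otherwise `c` is attracted (`GA.fa`) by a sink `p` of period `n`; the orbit of `c` has finitely many points outside any neighbourhood of the cycle of `p`; the closure `A` of the orbit (orbit and cycle of `p`) is contained in the Fatou set `FS` (open; the orbit: `fs_iff`; the cycle: attracted points, `GA.af`; see `orb_away`, H44/NR),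
so `JC u` (compact) and the closed set `{w : ℂ | (w : OnePoint ℂ) ∈ A}` are disjoint and have disjoint `δ`-thickenings (`Disjoint.exists_thickenings`). Take the minimum over the finitely many critical points.
`uso_ex`. Let `y ∈ JC u`, `ρ, δ > 0`, and suppose that for all `n` and all `z ∈ ball y ρ` the point `(Rf u)^[n] z` is some `w ∈ ball (gg^[n] y) δ`. Then `F n z = gg^[n] z` (all orbits stay in the plane) is holomorphic on `ball y ρ` (`b ≠ 0` along the orbits; `g_diff`-type lemmas of H57/CP or H3/NC/BRN) with values in the disc of radius `R + δ` (`JC u ⊆ closedBall 0 R`): Cauchy: all `F n` are Lipschitz with the same constant on `ball y (ρ / 2)`; `chord z w ≤ 2 ‖z - w‖`-type bound: `EqAt (Rf u) x` for all `x ∈ ball y (ρ / 2)`, so `y` is in the interior of `{EqAt}` (`FS`; the plane is open in the sphere): contradiction. (See the end of the proof of `per_dense`, H44/NR/Pdj, which has this argument.)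
`uso_per`. `per_dense` (H44/NR/Pdj) for the image of `ball y ρ ∩ ..`: a periodic point `p` of `Rf u` near `y`; it must be in `JS`: the periodic points which are not in `JS` are attracted (`GA.fa`), sinks, finitely many cycles (each sink attracts a critical point, `rep_dense`, `Pdj`/`rep_near` give repelling cycles near `y`: use `rep_near h.hd h.cop h.deg h.no h.af h.fi`, as in `GA.pas`, H64/NC/NSA, which gives repelling cycles near every Julia point). A repelling periodic point is in `JS`; `gg^[p] x = x` from `GA.git`.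
`us0_of`: `ns_of` (H64/NC/NSA) gives `δ, R0`; `NS` holds for every smaller `δ0 > 0` (only `bd` uses it); `δ0` = the minimum with the `δ` of `uso_fc` divided by `2` (`NJ J δ0` is the open `δ0`-neighbourhood; for `n = 0` the point `c` itself is in `A`). `back`: `fs_iff` (a preimage of a Julia point is a Julia point). `hD, wd`: assumptions.
-/

set_option autoImplicit false

open Filter Topology Polynomial Metric Set MeasureTheory

namespace Pool.Agent.H83.UP

open Pool.Agent.H44.Fatou (rat rat_continuous ev wv rat_coe rat_coe_of_ne pt crit_coe)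
open Pool.Agent.H56.HR (FS EqAt)
open Pool.Agent.H32.BT Pool.Agent.H79.Eul Pool.Agent.H79.Par Pool.Agent.H47.NN Pool.Agent.H44.ND
open Pool.Agent.H79.ES Pool.Agent.H35.EX Pool.Agent.H44.RC Pool.Agent.H47.RJ Pool.Agent.H84.BR Pool.Agent.H64.NC
open Pool.Agent.H61.TT Pool.Agent.H57.CP Pool.Agent.H3.NC Pool.Agent.H18.UP

variable {d : ℕ} {u : E d} {T : Set (OnePoint ℂ)}

/-- the Julia set in the plane is bounded -/
private theorem uso_bdd (h : GA u T) : ∃ R : ℝ, 0 < R ∧ ∀ z ∈ JC u, ‖z‖ ≤ R := by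
  obtain ⟨R, hR0, hR⟩ := h.rad
  refine ⟨R, hR0, fun z hz => ?_⟩
  by_contra hlt
  exact hz (h.af _ (h.tr.att _ (hR z (not_le.1 hlt))))

private theorem uso_cpt (h : GA u T) : IsCompact (JC u) := by
  obtain ⟨R, -, hR⟩ := uso_bdd h
  exact (isCompact_closedBall (0 : ℂ) R).of_isClosed_subset h.cl
    fun z hz => mem_closedBall_zero_iff.2 (hR z hz)

private theorem uso_fc1 (h : GA u T) (c : OnePoint ℂ) (hc : IsCrit (Rf u) c) : ∃ δ : ℝ, 0 < δ ∧
    ((∃ z ∈ JC u, c = (z : OnePoint ℂ) ∧ (ww (pol u.1) (pol u.2)).eval z = 0) ∨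
    ∀ n : ℕ, ∀ w ∈ NJ (JC u) δ, (Rf u)^[n] c ≠ (w : OnePoint ℂ)) := by
  by_cases hF : c ∈ FS (Rf u)
  · obtain ⟨F, hFc, hFa, hFn⟩ := Pool.Agent.H44.NR.orb_cl h.hd h.cop h.deg (h.fa c hF)
    have hcl : IsClosed ((fun z : ℂ => (z : OnePoint ℂ)) ⁻¹' F) := hFc.preimage OnePoint.continuous_coe
    have hdis : Disjoint (JC u) ((fun z : ℂ => (z : OnePoint ℂ)) ⁻¹' F) := by
      rw [Set.disjoint_left]
      intro z h1 h2
      exact h1 (h.af _ (hFa _ h2))
    obtain ⟨δ, hδ, hδ1⟩ := hdis.exists_thickenings (uso_cpt h) hcl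
    refine ⟨δ, hδ, Or.inr ?_⟩
    rintro n w ⟨y, hy, hw⟩ hn
    have h1 : (w : OnePoint ℂ) ∈ F := by
      rw [← hn]
      exact hFn n
    have h2 : w ∈ thickening δ (JC u) := mem_thickening_iff.2 ⟨y, hy, mem_ball.1 hw⟩
    exact Set.disjoint_left.1 hδ1 h2 (self_subset_thickening hδ _ h1)
  · refine ⟨1, one_pos, Or.inl ?_⟩
    have hi : c ≠ OnePoint.infty := by
      rintro rfl
      exact hF h.fi
    obtain ⟨z, rfl⟩ := OnePoint.ne_infty_iff_exists.1 hi
    exact ⟨z, hF, rfl, crit_coe hc⟩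

theorem uso_fc (h : GA u T) : ∃ δ : ℝ, 0 < δ ∧ ∀ c : OnePoint ℂ, IsCrit (Rf u) c →
    (∃ z ∈ JC u, c = (z : OnePoint ℂ) ∧ (ww (pol u.1) (pol u.2)).eval z = 0) ∨
    ∀ n : ℕ, ∀ w ∈ NJ (JC u) δ, (Rf u)^[n] c ≠ (w : OnePoint ℂ) := by
  have hfin : {c | IsCrit (Rf u) c}.Finite := crit_finite h.cop (by rw [h.deg]; have := h.hd; omega)
  have hex : ∀ c : OnePoint ℂ, ∃ δ : ℝ, 0 < δ ∧ (IsCrit (Rf u) c →
      (∃ z ∈ JC u, c = (z : OnePoint ℂ) ∧ (ww (pol u.1) (pol u.2)).eval z = 0) ∨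
      ∀ n : ℕ, ∀ w ∈ NJ (JC u) δ, (Rf u)^[n] c ≠ (w : OnePoint ℂ)) := by
    intro c
    by_cases hc : IsCrit (Rf u) c
    · obtain ⟨δ, hδ, h1⟩ := uso_fc1 h c hc
      exact ⟨δ, hδ, fun _ => h1⟩
    · exact ⟨1, one_pos, fun h1 => absurd h1 hc⟩
  choose δ hδ hδ1 using hex
  obtain ⟨ε, hε, hε1⟩ : ∃ ε : ℝ, 0 < ε ∧ ∀ c ∈ {c | IsCrit (Rf u) c}, ε ≤ δ c := by
    rcases hfin.toFinset.eq_empty_or_nonempty with he | hne
    · refine ⟨1, one_pos, fun c hc => ?_⟩
      rw [← hfin.mem_toFinset, he] at hc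
      exact absurd hc (Finset.notMem_empty _)
    · obtain ⟨c0, -, hc0⟩ := hfin.toFinset.exists_min_image δ hne
      exact ⟨δ c0, hδ c0, fun c hc => hc0 c (hfin.mem_toFinset.2 hc)⟩
  refine ⟨ε, hε, fun c hc => ?_⟩
  rcases hδ1 c hc with h1 | h1
  · exact Or.inl h1
  · refine Or.inr fun n w hw => h1 n w ?_
    obtain ⟨y, hy, hw⟩ := hw
    exact ⟨y, hy, ball_subset_ball (hε1 c hc) hw⟩

private theorem uso_chord (z w : ℂ) : chord (z : OnePoint ℂ) (w : OnePoint ℂ) ≤ ‖z - w‖ := by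
  show ‖z - w‖ / (√(1 + ‖z‖ ^ 2) * √(1 + ‖w‖ ^ 2)) ≤ _
  refine div_le_self (norm_nonneg _) ?_
  have h1 : ∀ u : ℂ, 1 ≤ √(1 + ‖u‖ ^ 2) := by
    intro u
    rw [Real.one_le_sqrt]
    have := sq_nonneg ‖u‖
    linarith
  have h2 := h1 z
  have h3 := h1 w
  nlinarith

theorem uso_ex (h : GA u T) {y : ℂ} (hy : y ∈ JC u) {ρ δ : ℝ} (hρ : 0 < ρ) (hδ : 0 < δ) : ∃ (n : ℕ) (z : ℂ), z ∈ ball y ρ ∧
    ∀ w ∈ ball ((Pool.Agent.H61.TT.gg (pol u.1) (pol u.2))^[n] y) δ, (Rf u)^[n] (z : OnePoint ℂ) ≠ (w : OnePoint ℂ) := by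
  by_contra hcon
  push Not at hcon
  have hS : ∀ (n : ℕ), ∀ z ∈ ball y ρ, (perRS (pol u.1) (pol u.2) n).2.eval z ≠ 0 ∧
      (perRS (pol u.1) (pol u.2) n).1.eval z / (perRS (pol u.1) (pol u.2) n).2.eval z ∈
        ball ((Pool.Agent.H61.TT.gg (pol u.1) (pol u.2))^[n] y) δ ∧
      (Rf u)^[n] (z : OnePoint ℂ) = (((perRS (pol u.1) (pol u.2) n).1.eval z /
        (perRS (pol u.1) (pol u.2) n).2.eval z : ℂ) : OnePoint ℂ) := by
    intro n z hz
    obtain ⟨w, hw, hw2⟩ := hcon n z hz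
    have h1 : (Rf u)^[n] (z : OnePoint ℂ) = pt ((perRS (pol u.1) (pol u.2) n).1.eval z)
      ((perRS (pol u.1) (pol u.2) n).2.eval z) := (perRS_spec h.cop z n).2
    have h2 : (perRS (pol u.1) (pol u.2) n).2.eval z ≠ 0 := by
      intro h0
      rw [h0] at h1
      unfold pt at h1
      rw [if_pos rfl, hw2] at h1
      exact OnePoint.coe_ne_infty _ h1
    unfold pt at h1
    rw [if_neg h2] at h1
    refine ⟨h2, ?_, h1⟩
    rw [hw2] at h1
    rw [← OnePoint.coe_injective h1]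
    exact hw
  obtain ⟨F, hF⟩ : ∃ F : ℕ → ℂ → ℂ, F = fun n z => (perRS (pol u.1) (pol u.2) n).1.eval z /
    (perRS (pol u.1) (pol u.2) n).2.eval z := ⟨_, rfl⟩
  have hF2 : ∀ n, ∀ z ∈ ball y ρ, F n z ∈ ball ((Pool.Agent.H61.TT.gg (pol u.1) (pol u.2))^[n] y) δ ∧
      (Rf u)^[n] (z : OnePoint ℂ) = (F n z : OnePoint ℂ) := by
    intro n z hz
    rw [hF]
    exact (hS n z hz).2
  have hFd : ∀ n, DifferentiableOn ℂ (F n) (ball y ρ) := by
    intro n
    rw [hF]
    exact (Polynomial.differentiable _).differentiableOn.div (Polynomial.differentiable _).differentiableOn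
      fun z hz => (hS n z hz).1
  have hder : ∀ n, ∀ z ∈ ball y (ρ / 2), ‖deriv (F n) z‖ ≤ δ / (ρ / 4) := by
    intro n z hz
    have hsub : closedBall z (ρ / 4) ⊆ ball y ρ := by
      intro w hw
      rw [mem_ball]
      have h1 := dist_triangle w z y
      have h2 := mem_closedBall.1 hw
      have h3 := mem_ball.1 hz
      linarith
    have h1 : deriv (F n) z = deriv (fun w => F n w - (Pool.Agent.H61.TT.gg (pol u.1) (pol u.2))^[n] y) z := by
      rw [deriv_sub_const]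
    rw [h1]
    refine Complex.norm_deriv_le_of_forall_mem_sphere_norm_le (by positivity) ?_ fun w hw => ?_
    · exact (((hFd n).mono hsub).sub_const _).diffContOnCl_ball le_rfl
    · have h2 := (hF2 n w (hsub (sphere_subset_closedBall hw))).1
      rw [mem_ball, dist_eq_norm] at h2
      exact h2.le
  have hlip : ∀ n, ∀ z ∈ ball y (ρ / 2), ∀ w ∈ ball y (ρ / 2), ‖F n z - F n w‖ ≤ δ / (ρ / 4) * ‖z - w‖ := by
    intro n z hz w hw
    exact Convex.norm_image_sub_le_of_norm_deriv_le (𝕜 := ℂ)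
      (fun x hx => (hFd n).differentiableAt (isOpen_ball.mem_nhds (ball_subset_ball (by linarith) hx)))
      (fun x hx => hder n x hx) (convex_ball y (ρ / 2)) hw hz
  apply hy
  refine interior_maximal (t := (fun z : ℂ => (z : OnePoint ℂ)) '' ball y (ρ / 2)) ?_
    (OnePoint.isOpenEmbedding_coe.isOpenMap _ isOpen_ball) ?_
  · rintro _ ⟨z, hz, rfl⟩ ε hε
    show ∀ᶠ y in 𝓝 (z : OnePoint ℂ), _
    rw [OnePoint.nhds_coe_eq, Filter.eventually_map]
    have hr : 0 < ε / (δ / (ρ / 4)) := by positivity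
    filter_upwards [isOpen_ball.mem_nhds hz, ball_mem_nhds z hr] with w hw1 hw2 n
    have h1 := (hF2 n z (ball_subset_ball (by linarith) hz)).2
    have h2 := (hF2 n w (ball_subset_ball (by linarith) hw1)).2
    rw [h1, h2]
    refine (uso_chord _ _).trans_lt ((hlip n z hz w hw1).trans_lt ?_)
    rw [mem_ball, dist_eq_norm, norm_sub_rev, lt_div_iff₀ (by positivity)] at hw2
    linarith
  · exact ⟨y, mem_ball_self (by positivity), rfl⟩

theorem uso_per (h : GA u T) {y : ℂ} (hy : y ∈ JC u) {ρ : ℝ} (hρ : 0 < ρ) : ∃ x ∈ JC u, ‖x - y‖ < ρ ∧ ∃ p : ℕ, 0 < p ∧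
    (Pool.Agent.H61.TT.gg (pol u.1) (pol u.2))^[p] x = x := by
  obtain ⟨S, hS⟩ : ∃ S : Set (OnePoint ℂ), S = {z | ∃ n : ℕ, IsSink (Rf u) z n} := ⟨_, rfl⟩
  have hSf : S.Finite := by rw [hS]; exact Pool.Agent.H64.MJ.sink_fin h.hd h.cop h.deg
  have hyS : (y : OnePoint ℂ) ∉ S := by
    rw [hS]
    rintro ⟨n, hn⟩
    apply hy
    apply h.af
    refine ⟨_, n, hn, ?_⟩
    have h1 : ∀ k : ℕ, (Rf u)^[n * k] (y : OnePoint ℂ) = (y : OnePoint ℂ) := by
      intro k
      rw [Function.iterate_mul]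
      exact Function.iterate_fixed hn.2.1 k
    simp only [h1]
    exact tendsto_const_nhds
  have hU : ((fun z : ℂ => (z : OnePoint ℂ)) '' ball y ρ) ∩ Sᶜ ∈ 𝓝 (y : OnePoint ℂ) := by
    refine Filter.inter_mem ?_ ?_
    · exact (OnePoint.isOpenEmbedding_coe.isOpenMap _ isOpen_ball).mem_nhds ⟨y, mem_ball_self hρ, rfl⟩
    · exact hSf.isClosed.isOpen_compl.mem_nhds hyS
  obtain ⟨P, ⟨⟨q, hq, rfl⟩, hP⟩, N, hN, hPN⟩ := Pool.Agent.H44.NR.per_dense h.hd h.cop h.deg hy hU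
  have hqJ : q ∈ JC u := by
    intro hqF
    obtain ⟨z, n, hs, ht⟩ := h.fa _ hqF
    apply hP
    rw [hS]
    refine ⟨n, ?_⟩
    have h1 : Tendsto (fun k : ℕ => (Rf u)^[n * (N * k)] (q : OnePoint ℂ)) atTop (𝓝 z) :=
      ht.comp (tendsto_id.const_mul_atTop' (by omega : 0 < N))
    have h2 : ∀ k : ℕ, (Rf u)^[n * (N * k)] (q : OnePoint ℂ) = (q : OnePoint ℂ) := by
      intro k
      rw [show n * (N * k) = N * (n * k) by ring, Function.iterate_mul]
      exact Function.iterate_fixed hPN _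
    simp only [h2] at h1
    have h3 := tendsto_nhds_unique h1 tendsto_const_nhds
    show IsSink (Rf u) (q : OnePoint ℂ) n
    rw [← h3]
    exact hs
  refine ⟨q, hqJ, mem_ball_iff_norm.1 hq, N, by omega, ?_⟩
  have h1 := (h.git hqJ N).2
  have h2 : (Rf u)^[N] (q : OnePoint ℂ) = (q : OnePoint ℂ) := hPN
  rw [h2] at h1
  exact (OnePoint.coe_injective h1).symm

theorem us0_of (h : GA u T) {D : ℕ} (hD : 1 ≤ D) (hw : (ww (pol u.1) (pol u.2)).natDegree ≤ D + 1) {c : ℂ}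
    (hc : IsCrit (Rf u) (c : OnePoint ℂ)) (hcJ : (c : OnePoint ℂ) ∈ JS (Rf u))
    (lg : ∀ x : ℂ, RegV d (pol u.1) (pol u.2) x → ∃ η : Polynomial ℂ, η.natDegree ≤ D ∧
      ∀ z : ℂ, (pol u.2).eval z ≠ 0 → Pool.Agent.H61.TT.gg (pol u.1) (pol u.2) z ≠ x →
      ∑ y ∈ fs (pol u.1) (pol u.2) x, dg (pol u.1) (pol u.2) z / ((y - z) * dg (pol u.1) (pol u.2) y ^ 2) =
        1 / (x - Pool.Agent.H61.TT.gg (pol u.1) (pol u.2) z) + η.eval z / (pol u.2).eval z ^ 2) :
    ∃ δ0 R0 : ℝ, US0 d D (pol u.1) (pol u.2) (JC u) δ0 R0 := by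
  obtain ⟨δ1, R0, hns⟩ := ns_of h hc hcJ lg
  obtain ⟨δ2, hδ2, hfc⟩ := uso_fc h
  have hδ1 := hns.hδ0
  have hδ : 0 < min δ1 δ2 := lt_min hδ1 hδ2
  refine ⟨min δ1 δ2, R0, ⟨⟨hns.rt, hns.Jc, hns.Jn, hns.Ji, hδ, ?_, hns.ni, hns.rep, hns.wan, hns.lg⟩, hD, hw, ?_, ?_, ?_, ?_⟩⟩
  · rintro n x ⟨y, hy, w, hw, hx⟩
    exact hns.bd n x ⟨y, hy, w, ball_subset_ball (min_le_left _ _) hw, hx⟩
  · intro z hz hgz hzF
    have h1 : Rf u (z : OnePoint ℂ) = ((Pool.Agent.H61.TT.gg (pol u.1) (pol u.2) z : ℂ) : OnePoint ℂ) := by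
      unfold Rf
      rw [rat_coe_of_ne hz]
      rfl
    apply hgz
    have h2 := (fs_iff (v := u) (by have := h.hd; omega) h.cop h.deg 1 (z : OnePoint ℂ)).2 hzF
    rw [Function.iterate_one, h1] at h2
    exact h2
  · intro y hy ρ hρ
    exact uso_ex h hy hρ hδ
  · intro y hy ρ hρ
    exact uso_per h hy hρ
  · intro c' hc'
    rcases hfc c' hc' with h1 | h1
    · exact Or.inl h1
    · refine Or.inr fun n w hw => h1 n w ?_
      obtain ⟨y, hy, hw⟩ := hw
      exact ⟨y, hy, ball_subset_ball (min_le_right _ _) hw⟩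

end Pool.Agent.H83.UP
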