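import Pool.Agent.H83.UP.KP2
import Pool.Agent.H66.UP.KI3
import Pool.Agent.H66.UP.KD

/-!
# [H83 UP KP3] THEOREM UP (MP_8f2e1c_an): the kernel data `KD`, Julia set not the sphere

`tri_p`: `K x - K y - t (K z - K y) = (qq x - qq y - t (qq z - qq y)) + ∑_j hh j w (V j x - V j y - t (V j z - V j y))`; `ki3` (H66/UP/KI3, integral over the plane, so over `Z`) for the first part, `VP.tri` times `∫_Z ‖hh j‖` for the others (`|log (‖z - y‖ / ‖x - y‖)| = log (..)` since the quotient is at least `1`; `z ≠ y` follows from `x ≠ y`).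
`eta_p`: `ww = (X - C c0) * w1` (`c0` is a root), `w1.eval c0 = (derivative ww).eval c0`; `η0 = - w1`; degree: `natDegree ww - 1 ≤ D` (`US0.wd`). For `x ≠ c0`: `dg x * qq x c0 = (x - c0) w1(x) / b(x)^2 / (c0 - x) = - w1 x / b x ^ 2`.
`kd_p`: `Z = ZV a b (NJ J δ0)` (`z_meas, z_pre, z_bd, z_ball`), `δ1 = δ0`, `R = R0 + 1` (`J ⊆ Z`), `r = 0`, `K = KQ D hh V` (`hcoP`), `Y` = the velocity for `η0` (`vj_lin`). `Ys`: `Y (gg x) = dg x Y x + dg x qq x c0` (`x ≠ c0` as `dg x ≠ 0`).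
`Yc`: `vj_crit`; `η0 / b ^ 2 = dg * qq · c0` near `c ≠ c0` has the derivative `dg'(c) qq c c0` at `c` (`dg c = 0`); divide by `dg'(c) ≠ 0` (`sim_p`). `Yv`: `Y (gg c0) = η0 c0 / b c0 ^ 2 = - ww'(c0) / b c0 ^ 2`. `Yt`: `VJ.tri`. `qi`: `qq_int`; `Ki`: sum. `C` = the maximum of `1` and the constants.
-/

set_option autoImplicit false

open Filter Topology Polynomial Metric Set MeasureTheory

namespace Pool.Agent.H83.UP

open Pool.Agent.H61.TT Pool.Agent.H57.CP Pool.Agent.H3.NC Pool.Agent.H78.NS Pool.Agent.H31.NS Pool.Agent.H18.UP Pool.Agent.H66.UP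

variable {d D : ℕ} {a b : Polynomial ℂ} {J : Set ℂ} {δ0 R0 : ℝ}

private theorem lg_nonneg {x y z : ℂ} (hxy : x ≠ y) (hle : ‖x - y‖ ≤ ‖z - y‖) :
    0 ≤ Real.log (‖z - y‖ / ‖x - y‖) := by
  have hp : 0 < ‖x - y‖ := norm_pos_iff.2 (sub_ne_zero.2 hxy)
  exact Real.log_nonneg ((one_le_div hp).2 hle)

private theorem ne_of_le {x y z : ℂ} (hxy : x ≠ y) (hle : ‖x - y‖ ≤ ‖z - y‖) : z ≠ y := by
  have hp : 0 < ‖x - y‖ := norm_pos_iff.2 (sub_ne_zero.2 hxy)
  exact sub_ne_zero.1 (norm_pos_iff.1 (hp.trans_le hle))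

/-- the derivative of the vector field at a second critical point -/
private theorem der_e {c0 c : ℂ} (hc : Cr a b c) (hne : c ≠ c0) (η : Polynomial ℂ)
    (h2 : ∀ x : ℂ, x ≠ c0 → b.eval x ≠ 0 → η.eval x / b.eval x ^ 2 = dg a b x * qq x c0) :
    deriv (fun z => η.eval z / b.eval z ^ 2) c = (derivative (ww a b)).eval c / b.eval c ^ 2 * qq c c0 := by
  have hb := hc.1
  have h3 : (fun z => η.eval z / b.eval z ^ 2) =ᶠ[𝓝 c] fun z => dg a b z * qq z c0 := by
    have h4 : ∀ᶠ z in 𝓝 c, z ≠ c0 := isOpen_ne.mem_nhds hne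
    have h5 : ∀ᶠ z in 𝓝 c, b.eval z ≠ 0 := (b.continuous.continuousAt).eventually_ne hb
    filter_upwards [h4, h5] with z h6 h7
    exact h2 z h6 h7
  rw [h3.deriv_eq]
  have hd : HasDerivAt (dg a b) ((derivative (ww a b)).eval c / b.eval c ^ 2) c := by
    have h4 := ((ww a b).hasDerivAt c).div ((b.hasDerivAt c).pow 2) (pow_ne_zero 2 hb)
    rw [hc.2] at h4
    have e : ((fun x => eval x b) ^ 2) c = b.eval c ^ 2 := rfl
    rw [e] at h4
    refine h4.congr_deriv ?_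
    field_simp
    ring
  have hk : DifferentiableAt ℂ (fun z => qq z c0) c := by
    unfold qq
    have h4 : c0 - c ≠ 0 := sub_ne_zero.2 (Ne.symm hne)
    exact DifferentiableAt.div (by fun_prop) (by fun_prop) h4
  have h4 := (hd.mul hk.hasDerivAt).deriv
  have h5 : dg a b c = 0 := by
    unfold dg
    rw [hc.2, zero_div]
  rw [h5, zero_mul, add_zero] at h4
  exact h4

theorem tri_p {C0 : ℝ} {V : ℕ → ℂ → ℂ} (hV : VP D a b J C0 V) {hh : ℕ → ℂ → ℂ} {Z : Set ℂ}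
    (hi : ∀ j, IntegrableOn (hh j) Z) :
    ∃ C : ℝ, 0 ≤ C ∧ ∀ x ∈ J, ∀ y ∈ J, ∀ z ∈ J, x ≠ y → ‖x - y‖ ≤ ‖z - y‖ →
    ∫⁻ w in Z, ‖KQ D hh V x w - KQ D hh V y w - (x - y) / (z - y) * (KQ D hh V z w - KQ D hh V y w)‖ₑ ≤
      ENNReal.ofReal (C * ‖x - y‖ * (1 + Real.log (‖z - y‖ / ‖x - y‖))) := by
  obtain ⟨C1, hC1, h0⟩ := ki3
  have hC0 : 0 ≤ C0 := zero_le_one.trans hV.hC
  have hI : ∀ j, 0 ≤ ∫ w in Z, ‖hh j w‖ := fun j => integral_nonneg fun w => norm_nonneg _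
  refine ⟨C1 + ∑ j ∈ Finset.range (D + 1), (∫ w in Z, ‖hh j w‖) * C0, ?_, fun x hx y hy z hz hxy hle => ?_⟩
  · exact add_nonneg hC1.le (Finset.sum_nonneg fun j _ => mul_nonneg (hI j) hC0)
  obtain ⟨T, hT⟩ : ∃ T : ℕ → ℂ, T = fun j => V j x - V j y - (x - y) / (z - y) * (V j z - V j y) := ⟨_, rfl⟩
  obtain ⟨L, hL⟩ : ∃ L, L = ‖x - y‖ * (1 + Real.log (‖z - y‖ / ‖x - y‖)) := ⟨_, rfl⟩
  have hL0 : 0 ≤ L := by
    rw [hL]
    exact mul_nonneg (norm_nonneg _) (add_nonneg zero_le_one (lg_nonneg hxy hle))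
  have e : ∀ w, KQ D hh V x w - KQ D hh V y w - (x - y) / (z - y) * (KQ D hh V z w - KQ D hh V y w) =
      (1 / (w - x) - 1 / (w - y) - (x - y) / (z - y) * (1 / (w - z) - 1 / (w - y))) +
        ∑ j ∈ Finset.range (D + 1), hh j w * T j := by
    intro w
    have e1 : ∑ j ∈ Finset.range (D + 1), hh j w * T j =
        ∑ j ∈ Finset.range (D + 1), hh j w * V j x - ∑ j ∈ Finset.range (D + 1), hh j w * V j y -
          (x - y) / (z - y) * (∑ j ∈ Finset.range (D + 1), hh j w * V j z -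
            ∑ j ∈ Finset.range (D + 1), hh j w * V j y) := by
      rw [← Finset.sum_sub_distrib, ← Finset.sum_sub_distrib, Finset.mul_sum, ← Finset.sum_sub_distrib]
      refine Finset.sum_congr rfl fun j _ => ?_
      rw [hT]
      ring
    rw [e1]
    unfold KQ qq
    ring
  have hm : ∀ j, AEMeasurable (fun w => ‖hh j w * T j‖ₑ) (volume.restrict Z) := fun j =>
    ((hi j).aestronglyMeasurable.mul_const (T j)).enorm
  have h2 : ∀ j ∈ Finset.range (D + 1), ∫⁻ w in Z, ‖hh j w * T j‖ₑ ≤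
      ENNReal.ofReal ((∫ w in Z, ‖hh j w‖) * C0 * L) := by
    intro j hj
    have hj' : j ≤ D := by
      rw [Finset.mem_range] at hj
      omega
    have h3 := hV.tri j hj' x hx y hy z hz hxy (ne_of_le hxy hle)
    rw [abs_of_nonneg (lg_nonneg hxy hle), mul_assoc, ← hL] at h3
    have h4 : ∫⁻ w in Z, ‖hh j w * T j‖ₑ = ENNReal.ofReal (∫ w in Z, ‖hh j w * T j‖) := by
      rw [ofReal_integral_norm_eq_lintegral_enorm (Integrable.mul_const (hi j) (T j))]
    rw [h4]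
    refine ENNReal.ofReal_le_ofReal ?_
    have h5 : ∫ w in Z, ‖hh j w * T j‖ = (∫ w in Z, ‖hh j w‖) * ‖T j‖ := by
      rw [← integral_mul_const]
      exact integral_congr_ae (Eventually.of_forall fun w => norm_mul _ _)
    rw [h5, mul_assoc]
    have h6 : ‖T j‖ ≤ C0 * L := by
      rw [hT]
      exact h3
    exact mul_le_mul_of_nonneg_left h6 (hI j)
  have h3 : ∫⁻ w in Z, ‖KQ D hh V x w - KQ D hh V y w - (x - y) / (z - y) * (KQ D hh V z w - KQ D hh V y w)‖ₑ ≤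
      ∫⁻ w in Z, (‖1 / (w - x) - 1 / (w - y) - (x - y) / (z - y) * (1 / (w - z) - 1 / (w - y))‖ₑ +
        ∑ j ∈ Finset.range (D + 1), ‖hh j w * T j‖ₑ) := by
    refine lintegral_mono fun w => ?_
    show ‖_‖ₑ ≤ _
    rw [e w]
    exact (enorm_add_le _ _).trans (add_le_add le_rfl (enorm_sum_le _ _))
  refine h3.trans ?_
  rw [lintegral_add_right' _ (Finset.aemeasurable_fun_sum _ fun j _ => hm j),
    lintegral_finsetSum' _ fun j _ => hm j]
  refine (add_le_add ((setLIntegral_le_lintegral Z _).trans (h0 x y z hxy hle)) (Finset.sum_le_sum h2)).trans ?_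
  rw [← ENNReal.ofReal_sum_of_nonneg fun j _ => mul_nonneg (mul_nonneg (hI j) hC0) hL0,
    ← ENNReal.ofReal_add _ (Finset.sum_nonneg fun j _ => mul_nonneg (mul_nonneg (hI j) hC0) hL0)]
  · refine ENNReal.ofReal_le_ofReal (le_of_eq ?_)
    rw [mul_assoc, mul_assoc, ← hL, add_mul, Finset.sum_mul]
  · rw [mul_assoc, ← hL]
    exact mul_nonneg hC1.le hL0

theorem eta_p (h : US0 d D a b J δ0 R0) {c0 : ℂ} (hw : (ww a b).eval c0 = 0) :
    ∃ η : Polynomial ℂ, η.natDegree ≤ D ∧ (∀ x : ℂ, x ≠ c0 → b.eval x ≠ 0 → η.eval x / b.eval x ^ 2 = dg a b x * qq x c0) ∧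
      η.eval c0 / b.eval c0 ^ 2 = - ((derivative (ww a b)).eval c0 / b.eval c0 ^ 2) := by
  obtain ⟨w1, hw1⟩ := dvd_iff_isRoot.2 (show IsRoot (ww a b) c0 from hw)
  refine ⟨-w1, ?_, fun x hx hb => ?_, ?_⟩
  · rw [natDegree_neg]
    by_cases hz : w1 = 0
    · rw [hz, natDegree_zero]
      exact Nat.zero_le _
    · have h2 : (ww a b).natDegree = 1 + w1.natDegree := by
        rw [hw1, natDegree_mul (X_sub_C_ne_zero c0) hz, natDegree_X_sub_C]
      have h3 := h.wd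
      omega
  · have hx0 : c0 - x ≠ 0 := sub_ne_zero.2 (Ne.symm hx)
    unfold dg qq
    rw [hw1]
    simp only [eval_mul, eval_C, eval_sub, eval_X, eval_neg]
    field_simp
    ring
  · have h2 : (derivative (ww a b)).eval c0 = w1.eval c0 := by
      rw [hw1, derivative_mul]
      simp
    rw [h2, eval_neg, neg_div]

theorem kd_p (h : US0 d D a b J δ0 R0) {C0 : ℝ} {V : ℕ → ℂ → ℂ} (hV : VP D a b J C0 V) {c0 : ℂ} (hcJ : c0 ∈ J)
    (hw : (ww a b).eval c0 = 0) :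
    ∃ (δ1 R C : ℝ) (r K : ℂ → ℂ → ℂ) (Y : ℂ → ℂ), KD a b J (ZV a b (NJ J δ0)) c0 δ1 R C qq r K Y := by
  have h1 := h.ns
  have hδ0 := h1.hδ0
  have hb0 : b.eval c0 ≠ 0 := h1.Jn c0 hcJ
  obtain ⟨hh, hi, hl⟩ := hcoP h1 (z_meas h1) (z_bd h1) z_pre
  obtain ⟨η, hη, hη1, hη2⟩ := eta_p h hw
  have hY := vj_lin hV hη
  obtain ⟨Y, hYd⟩ : ∃ Y : ℂ → ℂ, Y = fun x => ∑ j ∈ Finset.range (D + 1), η.coeff j * V j x := ⟨_, rfl⟩
  obtain ⟨C2, hC2d⟩ : ∃ C2 : ℝ, C2 = C0 * ∑ j ∈ Finset.range (D + 1), ‖η.coeff j‖ := ⟨_, rfl⟩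
  rw [← hYd, ← hC2d] at hY
  have hC2 := hY.hC
  obtain ⟨C1, hC1, hT⟩ := tri_p hV hi
  have hCa : C1 ≤ 1 + C1 + C2 := by linarith
  have hCb : C2 ≤ 1 + C1 + C2 := by linarith
  have hJR : ∀ x ∈ J, ‖x‖ ≤ R0 := fun x hx => z_bd h1 x (z_ball hx (mem_ball_self hδ0))
  refine ⟨δ0, R0 + 1, 1 + C1 + C2, fun _ _ => 0, KQ D hh V, Y, ?_⟩
  refine
    { hδ := hδ0
      hC := by linarith
      cJ := hcJ
      c0c := ⟨hb0, hw⟩
      crR := fun c hc _ => by
        have := hJR c hc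
        linarith
      Zm := z_meas h1
      Zp := z_pre
      Zb := z_ball hcJ
      rq := fun x _ w _ _ => by
        rw [add_zero]
        rfl
      rh := fun x _ => differentiableOn_const 0
      qi := fun x _ => qq_int (z_meas h1) (z_bd h1) x
      Ki := fun x _ => by
        refine Integrable.add (qq_int (z_meas h1) (z_bd h1) x) (integrable_finsetSum _ fun j _ => ?_)
        exact Integrable.mul_const (hi j) _
      step := fun x hxJ _ hx => (step_p h hV hl hxJ hx).mono fun w hw' _ => hw'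
      crit := fun c hcJ' hc => (crit_p h hV hl hcJ' hc.2).mono fun w hw' _ => hw'
      val0 := fun c hcJ' hc => (val0_p h hV hl hcJ' hc.2).mono fun w hw' _ => hw'
      tri := fun x hx y hy z hz _ _ _ hxy hle => by
        refine (hT x hx y hy z hz hxy hle).trans (ENNReal.ofReal_le_ofReal ?_)
        rw [mul_assoc, mul_assoc]
        exact mul_le_mul_of_nonneg_right hCa
          (mul_nonneg (norm_nonneg _) (add_nonneg zero_le_one (lg_nonneg hxy hle)))
      Yb := fun x hx _ => (hY.bd x hx).trans hCb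
      Ys := fun x hxJ hb hx => by
        have hne : x ≠ c0 := by
          rintro rfl
          apply hx
          unfold dg
          rw [hw, zero_div]
        rw [hY.eq x hxJ, hη1 x hne hb]
        field_simp
        ring
      Yc := fun c hcJ' hc hne => by
        have h2 := vj_crit h hY hcJ' hc.2
        rw [der_e hc hne η hη1, ← mul_add] at h2
        have h3 : (derivative (ww a b)).eval c / b.eval c ^ 2 ≠ 0 :=
          div_ne_zero (sim_p h hV hcJ' hc.2) (pow_ne_zero 2 hc.1)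
        exact eq_neg_of_add_eq_zero_left ((mul_eq_zero.1 h2).resolve_left h3)
      Yv := by
        rw [hY.eq c0 hcJ, hη2]
        unfold dg
        rw [hw, zero_div, zero_mul, zero_add]
      Yt := fun x hx y hy z hz _ _ _ hxy hle => by
        have h2 := hY.tri x hx y hy z hz hxy (ne_of_le hxy hle)
        rw [abs_of_nonneg (lg_nonneg hxy hle)] at h2
        refine h2.trans ?_
        rw [mul_assoc, mul_assoc]
        exact mul_le_mul_of_nonneg_right hCb
          (mul_nonneg (norm_nonneg _) (add_nonneg zero_le_one (lg_nonneg hxy hle))) }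

end Pool.Agent.H83.UP
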