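import Pool.Agent.H83.UP.LLG
import Pool.Agent.H18.UP.Defs

/-!
# [H83 UP PD] THEOREM UP (MP_8f2e1c_an), Julia set not the sphere: definitions

`MOT L η r R F`: the points `x` of `L` move holomorphically, `F x t`, `‖t‖ < r`, in the disc of radius `R`, without collisions; the velocities satisfy the functional equation for `η / b ^ 2`.
`VJ`: a velocity on `J` in the direction `η / b ^ 2`: bounded, equation, three point estimate.
-/

set_option autoImplicit false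

open Filter Topology Polynomial Metric Set

namespace Pool.Agent.H83.UP

open Pool.Agent.H61.TT (gg dg ww)

/-- motions of the points of `L` in the direction `η / b ^ 2` -/
structure MOT (a b : Polynomial ℂ) (L : Set ℂ) (η : Polynomial ℂ) (r R : ℝ) (F : ℂ → ℂ → ℂ) : Prop where
  hr : 0 < r
  hR : 0 < R
  dif : ∀ x ∈ L, DifferentiableOn ℂ (F x) (ball 0 r)
  zer : ∀ x ∈ L, F x 0 = x
  bdd : ∀ x ∈ L, ∀ t ∈ ball (0 : ℂ) r, ‖F x t‖ ≤ R
  vel : ∀ x ∈ L, deriv (F (gg a b x)) 0 = dg a b x * deriv (F x) 0 + η.eval x / b.eval x ^ 2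
  col : ∀ x ∈ L, ∀ y ∈ L, x ≠ y → ∀ t ∈ ball (0 : ℂ) r, F x t ≠ F y t

/-- the three point estimate on `L` with the constant `C` -/
def T3 (L : Set ℂ) (C : ℝ) (V : ℂ → ℂ) : Prop := ∀ x ∈ L, ∀ y ∈ L, ∀ z ∈ L, x ≠ y → z ≠ y →
  ‖V x - V y - (x - y) / (z - y) * (V z - V y)‖ ≤ C * ‖x - y‖ * (1 + |Real.log (‖z - y‖ / ‖x - y‖)|)

/-- a velocity on `J` in the direction `η / b ^ 2` -/
structure VJ (a b : Polynomial ℂ) (J : Set ℂ) (η : Polynomial ℂ) (C : ℝ) (V : ℂ → ℂ) : Prop where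
  hC : 0 ≤ C
  bd : ∀ x ∈ J, ‖V x‖ ≤ C
  eq : ∀ x ∈ J, V (gg a b x) = dg a b x * V x + η.eval x / b.eval x ^ 2
  tri : T3 J C V

end Pool.Agent.H83.UP
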