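import Pool.Agent.H83.UP.MLN
import Pool.Agent.H83.UP.PD
import Pool.Agent.H64.NC.PAS

/-!
# [H83 UP MTF] THEOREM UP (MP_8f2e1c_an): motions of the repelling cycles, the families

PROOF. Copy of `velF` (H57/CF/VLF), with `mot_line` (MLN, with `v0 = ex d k x`, `w = ex d k y`) in place of `vel_line` (`hlin`). The direction: `xi_surjm`, see `vbd_upF` (H64/NC/PAS): `η / b ^ 2 = xi (ex d k x) (ex d k y)`.
-/

set_option autoImplicit false

open Filter Topology Polynomial Metric Set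

namespace Pool.Agent.H83.UP

open Pool.Agent.H44.Fatou (rat ev wv)
open Pool.Agent.H79.Eul Pool.Agent.H79.Par Pool.Agent.H47.NN Pool.Agent.H44.NP Pool.Agent.H44.ND
open Pool.Agent.H47.NM Pool.Agent.H79.ES Pool.Agent.H32.BT Pool.Agent.H35.EX Pool.Agent.H44.CP Pool.Agent.H57.CF
open Pool.Agent.H61.TT (gg dg ww)

variable {d k : ℕ}

theorem mot_upF (hd : 2 ≤ d) (hk : 2 ≤ k) (hkd : k ≤ d) {x : Em d k} (hg : GenM d k (pol x.1) (pol x.2))
    (hup : ¬ UpF d k x) {η : Polynomial ℂ} (hη : η.natDegree ≤ 2 * d - k) :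
    ∃ (r R : ℝ) (F : ℂ → ℂ → ℂ), MOT (pol (ex d k x).1) (pol (ex d k x).2) (PP (ex d k x)) η r R F := by
  have hcop := hg.cop
  have hdeg := genM_deg hg
  have hinf : Att (Rf (ex d k x)) OnePoint.infty := by
    obtain ⟨h1, h2, -⟩ := inf_sink (fam_ex hk hkd hg) one_pos
    exact ⟨OnePoint.infty, 1, h2, by
      have h3 : ∀ j : ℕ, (Rf (ex d k x))^[1 * j] OnePoint.infty = OnePoint.infty := by
        intro j
        rw [one_mul]
        exact Function.iterate_fixed h1 j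
      simp only [h3]
      exact tendsto_const_nhds⟩
  -- a ball without neutral cycles
  obtain ⟨ε0, hε0, hno⟩ : ∃ ε : ℝ, 0 < ε ∧ ∀ w ∈ ball x ε, IsCoprime (pol w.1) (pol w.2) →
      max (pol w.1).natDegree (pol w.2).natDegree = d → NA (ex d k w) ≤ NA (ex d k x) := by
    unfold UpF at hup
    push Not at hup
    obtain ⟨ε, hε, h⟩ := hup
    exact ⟨ε, hε, fun w hw h1 h2 => Nat.lt_succ_iff.1 (h w hw h1 h2)⟩
  obtain ⟨W, hW, hWv⟩ := att_pers hd (ex_cop hcop) (ex_deg hdeg) hinf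
  have hev : ∀ᶠ v in 𝓝 x, (∀ z ∈ W, Att (Rf (ex d k v)) z) ∧ GenM d k (pol v.1) (pol v.2) ∧
      NA (ex d k x) ≤ NA (ex d k v) :=
    ((ex_cont d k).continuousAt.eventually hWv).and ((genM_near hd hkd hg).and (ex_low hd hcop hdeg))
  obtain ⟨ε1, hε1, hall⟩ := Metric.eventually_nhds_iff_ball.1 hev
  obtain ⟨ε, hεd⟩ : ∃ ε, ε = min ε0 ε1 := ⟨_, rfl⟩
  have hε : 0 < ε := by rw [hεd]; exact lt_min hε0 hε1
  have hno' : ∀ v ∈ ball x ε, ¬ UpF d k v := by
    intro v hv hu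
    rw [hεd] at hv
    have hv1 := hall v (ball_subset_ball (min_le_right _ _) hv)
    obtain ⟨δ, hδ, hδb⟩ := Metric.isOpen_iff.1 isOpen_ball v (ball_subset_ball (min_le_left _ _) hv)
    obtain ⟨w, hw, h1, h2, h3⟩ := hu δ hδ
    have h4 := hno w (hδb hw) h1 h2
    have h5 := hv1.2.2
    omega
  have hvn : ∀ v ∈ ball x ε, ∀ p : ℕ, 0 < p → ∀ z m,
      Cyc (pol (ex d k v).1) (pol (ex d k v).2) p z m → ‖m‖ ≠ 1 := by
    intro v hv p hp z m hc hm
    have hv1 := hall v (ball_subset_ball (by rw [hεd]; exact min_le_right _ _) hv)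
    rw [(ex_pol v).1, (ex_pol v).2] at hc
    exact hno' v hv (neu_upF hd hk hkd hv1.2.1 hp hc hm)
  -- the bound
  obtain ⟨R, hRp, hRW⟩ : ∃ R : ℝ, 0 < R ∧ ∀ z : ℂ, R < ‖z‖ → (z : OnePoint ℂ) ∈ W := by
    have h1 : Tendsto (fun z : ℂ => (z : OnePoint ℂ)) (Filter.cocompact ℂ) (𝓝 OnePoint.infty) := by
      rw [← Filter.coclosedCompact_eq_cocompact]
      exact OnePoint.tendsto_coe_infty
    have h2 : ∀ᶠ z : ℂ in Filter.cocompact ℂ, (z : OnePoint ℂ) ∈ W := h1.eventually hW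
    rw [← Metric.cobounded_eq_cocompact,
      (Metric.hasBasis_cobounded_compl_closedBall (0 : ℂ)).eventually_iff] at h2
    obtain ⟨R0, -, hR0⟩ := h2
    refine ⟨max R0 1, lt_of_lt_of_le one_pos (le_max_right _ _), fun z hz => hR0 ?_⟩
    intro h3
    exact (mem_closedBall_zero_iff.1 h3).not_gt ((le_max_left _ _).trans_lt hz)
  have hbd : ∀ v ∈ ball x ε, ∀ p : ℕ, 0 < p → ∀ z m,
      Cyc (pol (ex d k v).1) (pol (ex d k v).2) p z m → 1 ≤ ‖m‖ → ∀ i, i ≤ p → ‖z i‖ ≤ R := by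
    intro v hv p hp z m hc hm i hi
    have hv1 := hall v (ball_subset_ball (by rw [hεd]; exact min_le_right _ _) hv)
    by_contra hlt
    exact big_na_all hd (ex_cop hv1.2.1.cop) (ex_deg (genM_deg hv1.2.1)) hp hc hm hi
      (hv1.1 _ (hRW _ (not_le.1 hlt)))
  -- the direction
  obtain ⟨w', hw', hxi⟩ := Pool.Agent.H79.GP.xi_surjm hd (fam_ex hk hkd hg) hη
  obtain ⟨w, hw⟩ : ∃ y : Em d k, ex d k y = w' := by
    refine ⟨(w'.1, fun i => w'.2 ⟨i, by omega⟩), ?_⟩
    refine Prod.ext rfl (funext fun i => ?_)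
    unfold ex
    by_cases h : (i : ℕ) < d - k + 1
    · simp only [h, dite_true]
    · simp only [h, dite_false]
      exact (hw' i (by omega)).symm
  obtain ⟨r, hrd⟩ : ∃ r, r = ε / (2 * (‖w‖ + 1)) := ⟨_, rfl⟩
  have hw0 : 0 < ‖w‖ + 1 := by positivity
  have hr : 0 < r := by rw [hrd]; positivity
  have hvb : ∀ t : ℂ, ‖t‖ ≤ r → x + t • w ∈ ball x ε := by
    intro t ht
    rw [mem_ball_iff_norm, add_sub_cancel_left, norm_smul]
    rw [hrd, le_div_iff₀ (by positivity)] at ht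
    have h1 := norm_nonneg t
    have h2 := norm_nonneg w
    nlinarith
  have hlin : ∀ t : ℂ, ex d k x + t • ex d k w = ex d k (x + t • w) := by
    intro t
    refine Prod.ext rfl (funext fun i => ?_)
    show (ex d k x).2 i + t • (ex d k w).2 i = (ex d k (x + t • w)).2 i
    unfold ex
    by_cases h : (i : ℕ) < d - k + 1
    · simp only [h, dite_true]
      rfl
    · simp only [h, dite_false, smul_zero, add_zero]
  obtain ⟨F, hF1, hF2⟩ := mot_line (v0 := ex d k x) (w := ex d k w) (R := R) hr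
    (fun t ht => by
      rw [hlin]
      exact ex_cop (hall _ (ball_subset_ball (by rw [hεd]; exact min_le_right _ _) (hvb t ht))).2.1.cop)
    (fun t ht p hp z m hc => by
      rw [hlin] at hc
      exact hvn _ (hvb t ht) p hp z m hc)
    (fun t ht p hp z m hc hm => by
      rw [hlin] at hc
      exact hbd _ (hvb t ht) p hp z m hc hm)
  refine ⟨r, R, F, hr, hRp, fun z hz => (hF1 z hz).1, fun z hz => (hF1 z hz).2.1, fun z hz => (hF1 z hz).2.2.1,
    fun z hz => ?_, hF2⟩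
  rw [(hF1 z hz).2.2.2, hw, hxi]

end Pool.Agent.H83.UP
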