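import Pool.Agent.H83.UP.MTU
import Pool.Agent.H83.UP.MTF
import Pool.Agent.H18.UP.USZ
import Pool.Agent.H83.UP.KP3
import Pool.Agent.H18.UP.PLG

/-!
# [H83 UP ALL] THEOREM UP (MP_8f2e1c_an): all data for Julia set not the sphere

`all_ga`: `us0` (H18/UP/USZ): `US0`; `vp_of` (VPO) with `P0 = PP u`: a periodic point `x ∈ JC u` is in `PP u` (`GA.git`, `pl_cyc` as in `GA.rep`, H64/NC/NSA: the multiplier is `tD a b p x`, of modulus `> 1` by `GA.rep`); `sim_p`: `US`; `plg` (H18/UP): `Geo`; `kd_p` (KP3).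
`all_up`: the chart of `cht_up` (H64/NC/NSB), `mot_up` in place of `vbd_up`. `all_upF`: the chart of `cht_upF`, `mot_upF`.
-/

set_option autoImplicit false

open Filter Topology Polynomial Metric Set MeasureTheory

namespace Pool.Agent.H83.UP

open Pool.Agent.H44.Fatou (rat rat_continuous ev wv crit_coe)
open Pool.Agent.H56.HR (FS EqAt)
open Pool.Agent.H32.BT Pool.Agent.H79.Eul Pool.Agent.H79.Par Pool.Agent.H47.NN Pool.Agent.H44.ND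
open Pool.Agent.H79.ES Pool.Agent.H35.EX Pool.Agent.H44.RC Pool.Agent.H47.RJ Pool.Agent.H84.BR
open Pool.Agent.H61.TT Pool.Agent.H57.CP Pool.Agent.H3.NC Pool.Agent.H57.CF Pool.Agent.H47.NM Pool.Agent.H47.PS
open Pool.Agent.H64.NC Pool.Agent.H18.UP Pool.Agent.H66.UP

variable {d : ℕ} {v : E d}

/-- the data in a chart -/
def DAT (d : ℕ) (a b : Polynomial ℂ) (J : Set ℂ) : Prop := ∃ δ0 : ℝ, Geo d a b J δ0 ∧ ∀ c0 ∈ J, Cr a b c0 →
  ∃ (Z : Set ℂ) (δ1 R C : ℝ) (q r K : ℂ → ℂ → ℂ) (Y : ℂ → ℂ), KD a b J Z c0 δ1 R C q r K Y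

/-- periodic points of the Julia set are in `PP` -/
theorem per_pp {u : E d} {T : Set (OnePoint ℂ)} (h : GA u T) {x : ℂ} (hx : x ∈ JC u) {p : ℕ} (hp : 0 < p)
    (hpx : (Pool.Agent.H61.TT.gg (pol u.1) (pol u.2))^[p] x = x) : x ∈ PP u := by
  have hit := h.git hx
  have ha : (Rf u)^[p] (x : OnePoint ℂ) = (x : OnePoint ℂ) := by rw [(hit p).2, hpx]
  have hi : ∀ i : ℕ, (Rf u)^[i] (x : OnePoint ℂ) ≠ OnePoint.infty := by
    intro i
    rw [(hit i).2]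
    exact OnePoint.coe_ne_infty _
  obtain ⟨z, m, hz, hc, -, -⟩ := Pool.Agent.H64.NC.pl_cyc ha hi
  have hzi : ∀ i, z i = (Pool.Agent.H61.TT.gg (pol u.1) (pol u.2))^[i] x := by
    intro i
    have h1 := hz i
    rw [(hit i).2] at h1
    exact (OnePoint.coe_injective h1).symm
  have hm : m = tD (pol u.1) (pol u.2) p x := by
    rw [← hc.mul]
    unfold tD
    refine Finset.prod_congr rfl fun i _ => ?_
    rw [hzi]
    rfl
  have h1 := h.rep x hx p hp hpx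
  rw [← hm] at h1
  exact ⟨p, z, m, hp, hc, h1.le, hzi 0⟩

theorem vp_ga {u : E d} {T : Set (OnePoint ℂ)} (h : GA u T) {D : ℕ} {δ0 R0 : ℝ}
    (hU : US0 d D (pol u.1) (pol u.2) (JC u) δ0 R0)
    (hM : ∀ η : Polynomial ℂ, η.natDegree ≤ D → ∃ (r R : ℝ) (F : ℂ → ℂ → ℂ), MOT (pol u.1) (pol u.2) (PP u) η r R F) :
    ∃ (C : ℝ) (X : ℕ → ℂ → ℂ), VP D (pol u.1) (pol u.2) (JC u) C X :=
  vp_of hU (fun _ hx _ hp hpx => per_pp h hx hp hpx) hM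

theorem us_of {D : ℕ} {a b : Polynomial ℂ} {J : Set ℂ} {δ0 R0 : ℝ} (hU : US0 d D a b J δ0 R0) {C : ℝ} {X : ℕ → ℂ → ℂ}
    (hV : VP D a b J C X) : US d D a b J δ0 R0 :=
  { hU with sim := fun _ hc hw => sim_p hU hV hc hw }

theorem all_ga {u : E d} {T : Set (OnePoint ℂ)} (h : GA u T) {D : ℕ} (hD : 1 ≤ D)
    (hw : (Pool.Agent.H61.TT.ww (pol u.1) (pol u.2)).natDegree ≤ D + 1) {c : ℂ}
    (hc : IsCrit (Rf u) (c : OnePoint ℂ)) (hcJ : (c : OnePoint ℂ) ∈ JS (Rf u))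
    (lg : ∀ x : ℂ, RegV d (pol u.1) (pol u.2) x → ∃ η : Polynomial ℂ, η.natDegree ≤ D ∧
      ∀ z : ℂ, (pol u.2).eval z ≠ 0 → Pool.Agent.H61.TT.gg (pol u.1) (pol u.2) z ≠ x →
      ∑ y ∈ fs (pol u.1) (pol u.2) x, dg (pol u.1) (pol u.2) z / ((y - z) * dg (pol u.1) (pol u.2) y ^ 2) =
        1 / (x - Pool.Agent.H61.TT.gg (pol u.1) (pol u.2) z) + η.eval z / (pol u.2).eval z ^ 2)
    (hM : ∀ η : Polynomial ℂ, η.natDegree ≤ D → ∃ (r R : ℝ) (F : ℂ → ℂ → ℂ), MOT (pol u.1) (pol u.2) (PP u) η r R F) :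
    DAT d (pol u.1) (pol u.2) (JC u) := by
  obtain ⟨δ0, R0, hU⟩ := Pool.Agent.H18.UP.us0 h hD hw hc hcJ lg
  obtain ⟨C, X, hV⟩ := vp_ga h hU hM
  refine ⟨δ0, plg (us_of hU hV), fun c0 hc0 hcr => ?_⟩
  obtain ⟨δ1, R, C', r, K, Y, hK⟩ := kd_p hU hV hc0 hcr.2
  exact ⟨_, δ1, R, C', qq, r, K, Y, hK⟩

/-- all rational maps -/
theorem dat_up {u : E d} {T : Set (OnePoint ℂ)} (h : GA u T) (hup : ¬ Up u) {c : ℂ}
    (hc : IsCrit (Rf u) (c : OnePoint ℂ)) (hcJ : (c : OnePoint ℂ) ∈ JS (Rf u)) : DAT d (pol u.1) (pol u.2) (JC u) := by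
  have hd := h.hd
  have hrt : RatD d (pol u.1) (pol u.2) := ⟨h.hd, h.cop, h.deg⟩
  have hw := Pool.Agent.H1.PU.ww_deg hrt
  refine all_ga h (D := 2 * d) (by omega) (by omega) hc hcJ (fun x hx => lagr hrt hx) ?_
  intro η hη
  exact mot_up h.hd h.cop h.deg hup (h.tr.att _ (interior_subset h.ti)) hη

/-- the families -/
theorem dat_upF {k : ℕ} (hd : 2 ≤ d) (hk : 2 ≤ k) (hkd : k ≤ d) {x : Em d k} (hg : GenM d k (pol x.1) (pol x.2))
    (hup : ¬ UpF d k x) {T : Set (OnePoint ℂ)} (h : GA (ex d k x) T) {c : ℂ}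
    (hc : IsCrit (Rf (ex d k x)) (c : OnePoint ℂ)) (hcJ : (c : OnePoint ℂ) ∈ JS (Rf (ex d k x))) :
    DAT d (pol (ex d k x).1) (pol (ex d k x).2) (JC (ex d k x)) := by
  have hrt : RatD d (pol (ex d k x).1) (pol (ex d k x).2) := ⟨h.hd, h.cop, h.deg⟩
  have hbl : (pol (ex d k x).2).natDegree + k ≤ d := by
    rw [(fam_ex hk hkd hg).hb]
    omega
  have hw : (Pool.Agent.H61.TT.ww (pol (ex d k x).1) (pol (ex d k x).2)).natDegree ≤ (2 * d - k) + 1 := by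
    have ha : (pol (ex d k x).1).natDegree ≤ d := (le_max_left _ _).trans (le_of_eq h.deg)
    have ha' := natDegree_derivative_le (pol (ex d k x).1)
    have hb' := natDegree_derivative_le (pol (ex d k x).2)
    unfold Pool.Agent.H61.TT.ww
    refine (natDegree_sub_le _ _).trans (max_le ?_ ?_)
    · refine natDegree_mul_le.trans ?_
      omega
    · refine natDegree_mul_le.trans ?_
      omega
  refine all_ga h (D := 2 * d - k) (by omega) hw hc hcJ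
    (fun x hx => Pool.Agent.H79.GP.lagn hrt (by omega) hkd hbl hx) ?_
  intro η hη
  exact mot_upF hd hk hkd hg hup hη

theorem all_up (hd : 2 ≤ d) (hcop : IsCoprime (pol v.1) (pol v.2))
    (hdeg : max (pol v.1).natDegree (pol v.2).natDegree = d) (hup : ¬ Up v)
    (hF : (FS (Rf v)).Nonempty) {c : OnePoint ℂ} (hc : IsCrit (Rf v) c) (hcJ : c ∈ JS (Rf v)) :
    ∃ (u : E d) (φ : OnePoint ℂ ≃ₜ OnePoint ℂ) (K : ℝ) (T : Set (OnePoint ℂ)),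
      (∀ x y, chord (φ x) (φ y) ≤ K * chord x y ∧ chord x y ≤ K * chord (φ x) (φ y)) ∧
      (∀ x, Rf u (φ x) = φ (Rf v x)) ∧ GA u T ∧ DAT d (pol u.1) (pol u.2) (JC u) := by
  obtain ⟨x0, hx0⟩ := hF
  obtain ⟨z, n, hs, -⟩ := Pool.Agent.H64.MJ.fs_att hd hcop hdeg hup hx0
  obtain ⟨p1, p2, h12, h1z, h2z⟩ : ∃ p1 p2 : OnePoint ℂ, p1 ≠ p2 ∧ p1 ≠ z ∧ p2 ≠ z := by
    have hinf : (({z} : Set (OnePoint ℂ))ᶜ).Infinite := (finite_singleton z).infinite_compl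
    obtain ⟨p1, hp1⟩ := hinf.nonempty
    obtain ⟨p2, hp2⟩ := (hinf.sdiff (finite_singleton p1)).nonempty
    exact ⟨p1, p2, fun h => hp2.2 h.symm, hp1, hp2.1⟩
  obtain ⟨L, G, φ, K, hch, -, -, -, fi⟩ := ch_three (d := d) hd h12 h1z h2z
  obtain ⟨hcop1, hdeg1, hφ⟩ := hch.conj v hcop hdeg
  have hup1 : ¬ Up (L v) := fun h =>
    hup (up_chart hd hch.cG hch.invL hch.invR (fun v h3 h4 => (hch.conj v h3 h4).2.2) hcop hdeg h)
  have hs1 : IsSink (Rf (L v)) OnePoint.infty n := by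
    rw [← fi]
    exact (isSink_conj φ hφ z n).2 hs
  obtain ⟨T, hT, hTi⟩ := trap_of_sink hcop1 (by rw [hdeg1]; exact hd) hs1
  have hGA : GA (L v) T :=
    ⟨hd, hcop1, hdeg1, fun p hp x m hcy hm => hup1 (Pool.Agent.H44.CP.neu_up hd hcop1 hdeg1 hp hcy hm),
      fun x hx => Pool.Agent.H44.NR.att_in hd hcop1 hdeg1 hup1 hx,
      fun x hx => Pool.Agent.H64.MJ.fs_att hd hcop1 hdeg1 hup1 hx, hT, hTi⟩
  have hJ : φ c ∈ JS (Rf (L v)) := fun h1 => hcJ ((Pool.Agent.H76.SU.fs_conj hch.bil hφ c).1 h1)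
  have hi : φ c ≠ OnePoint.infty := by
    intro h1
    rw [h1] at hJ
    exact hJ hGA.fi
  obtain ⟨c1, hc1⟩ := OnePoint.ne_infty_iff_exists.1 hi
  have hcr : IsCrit (Rf (L v)) (c1 : OnePoint ℂ) := by
    rw [hc1]
    exact (isCrit_conj φ hφ c).2 hc
  rw [← hc1] at hJ
  exact ⟨L v, φ, K, T, hch.bil, hφ, hGA, dat_up hGA hup1 hcr hJ⟩

theorem all_upF {k : ℕ} (hd : 2 ≤ d) (hk : 2 ≤ k) (hkd : k ≤ d) {x : Em d k} (hcop : IsCoprime (pol x.1) (pol x.2))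
    (hdeg : max (pol x.1).natDegree (pol x.2).natDegree = d) (hup : ¬ UpF d k x)
    {c : OnePoint ℂ} (hc : IsCrit (Rf (ex d k x)) c) (hcJ : c ∈ JS (Rf (ex d k x))) :
    ∃ (u : E d) (φ : OnePoint ℂ ≃ₜ OnePoint ℂ) (K : ℝ) (T : Set (OnePoint ℂ)),
      (∀ x y, chord (φ x) (φ y) ≤ K * chord x y ∧ chord x y ≤ K * chord (φ x) (φ y)) ∧
      (∀ y, Rf u (φ y) = φ (Rf (ex d k x) y)) ∧ GA u T ∧ DAT d (pol u.1) (pol u.2) (JC u) := by
  obtain ⟨l, y, φ, K, hl, hld, hg, hK, hφ, hup'⟩ := red_gen hd hk hkd hcop hdeg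
  have hupy : ¬ UpF d l y := fun h => hup (hup' h)
  obtain ⟨T, hGA⟩ := ga_gen hd hl hld hg hupy
  have hJ : φ c ∈ JS (Rf (ex d l y)) := fun h1 => hcJ ((Pool.Agent.H76.SU.fs_conj hK hφ c).1 h1)
  have hi : φ c ≠ OnePoint.infty := by
    intro h1
    rw [h1] at hJ
    exact hJ hGA.fi
  obtain ⟨c1, hc1⟩ := OnePoint.ne_infty_iff_exists.1 hi
  have hcr : IsCrit (Rf (ex d l y)) (c1 : OnePoint ℂ) := by
    rw [hc1]
    exact (isCrit_conj φ hφ c).2 hc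
  rw [← hc1] at hJ
  exact ⟨ex d l y, φ, K, T, hK, hφ, hGA, dat_upF hd hl hld hg hupy hGA hcr hJ⟩

end Pool.Agent.H83.UP
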