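import Pool.Agent.H83.UP.VEX

/-!
# [H83 UP VPO] THEOREM UP (MP_8f2e1c_an): the velocities on the Julia set

`vp_of`. `L = P0 ∩ J` where `P0` contains the periodic points of `J` (`hL`). By `US0.per` `J ⊆ closure L`; `J` is bounded: `NS.bd` with `n = 0` (`x = z ∈ J`, `w = z`). For `j ≤ D`: `MOT .. (X ^ j) ..` (`hM`), restricted to `L`; `mot_t3`; `C_j = max (2 R / r) (5760 / r)`; `ext_j`: `V'`. `VJ`: the equation holds on `L` (`V' (gg x) = V (gg x)`: `gg x ∈ L`, as `gg x ∈ J` (`NS.Ji`) and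
`gg x` is periodic: use `hL` for `gg x`, or take `L` = the periodic points in `J`: it is invariant under `gg`). Both sides of the equation are continuous on `J` (`b ≠ 0` on `J`, `gg`, `dg` continuous there, `gg` maps `J` to `J`): equality on `J` by density.
`VP`: `X j = V'_j`, `C = 1 + ∑ C_j`.
`vj_lin`: `VJ` for `η = ∑ η.coeff j X ^ j` (as `velp_lin`, H66/UP/KS1).
`vj_crit`: as `velp_crit` (H66/UP/KS1) with `z → c` in `J` (`c` is an accumulation point of `J`, `hacc`): `V (g z) - V (g c) = g'(z) V z + E z - E c`, `E = η / b ^ 2`; `‖g z - g c‖ ≤ C1 ‖z - c‖ ^ 2`; `t3_ll`: `(V (g z) - V (g c)) / (z - c) → 0`; `V z → V c` (`V` is continuous on `J` by `t3_ll`); `g'(z) / (z - c) → ww'(c) / b c ^ 2`, `(E z - E c) / (z - c) → E'(c)`.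
`acc_of`: `J` has no isolated points: for `c ∈ J` with `ww c = 0`: `US0.per` with small radii gives periodic points `x ∈ J` near `c`; `x ≠ c` since `c` is not periodic (`NS.rep`: `1 < ‖tD p c‖`, but `tD a b p c = 0` if `dg c = 0`, `p > 0`).
`sim_p`: as `sim_s` (H66/UP/KS1): `η = X - C c` (`1 ≤ D`): if `ww'(c) = 0` then `vj_crit` gives `deriv E c = 0`, but `deriv E c = 1 / b c ^ 2`.
-/

set_option autoImplicit false

open Filter Topology Polynomial Metric Set

namespace Pool.Agent.H83.UP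

open Pool.Agent.H61.TT Pool.Agent.H57.CP Pool.Agent.H3.NC Pool.Agent.H18.UP

variable {d D : ℕ} {a b : Polynomial ℂ} {J : Set ℂ} {δ0 R0 : ℝ}

private theorem vpo_bd (h : NS d D a b J δ0 R0) {x : ℂ} (hx : x ∈ J) : ‖x‖ ≤ R0 := by
  obtain ⟨z, h1, h2⟩ := h.bd 0 (x : OnePoint ℂ) ⟨x, hx, x, mem_ball_self h.hδ0, rfl⟩
  rw [OnePoint.coe_injective h1]
  exact h2

private theorem vpo_mono {L : Set ℂ} {C C' : ℝ} {V : ℂ → ℂ} (h : T3 L C V) (hC : C ≤ C') : T3 L C' V := by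
  intro x hx y hy z hz hxy hzy
  refine (h x hx y hy z hz hxy hzy).trans ?_
  have h1 : 0 ≤ ‖x - y‖ * (1 + |Real.log (‖z - y‖ / ‖x - y‖)|) := by positivity
  rw [mul_assoc, mul_assoc]
  exact mul_le_mul_of_nonneg_right hC h1

private theorem vpo_gc (h : NS d D a b J δ0 R0) : ContinuousOn (gg a b) J := fun _ hz =>
  (hasDerivAt_gg (h.Jn _ hz)).continuousAt.continuousWithinAt

private theorem vpo_dc (h : NS d D a b J δ0 R0) : ContinuousOn (Pool.Agent.H61.TT.dg a b) J := by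
  intro z hz
  refine ContinuousAt.continuousWithinAt ?_
  unfold Pool.Agent.H61.TT.dg
  exact (ww a b).continuous.continuousAt.div (b.continuous.continuousAt.pow 2) (pow_ne_zero 2 (h.Jn z hz))

private theorem vpo_ec (h : NS d D a b J δ0 R0) (η : Polynomial ℂ) :
    ContinuousOn (fun z => η.eval z / b.eval z ^ 2) J := by
  intro z hz
  exact ContinuousAt.continuousWithinAt
    (η.continuous.continuousAt.div (b.continuous.continuousAt.pow 2) (pow_ne_zero 2 (h.Jn z hz)))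

theorem vp_of (h : US0 d D a b J δ0 R0) {P0 : Set ℂ} (hL : ∀ x ∈ J, ∀ p : ℕ, 0 < p → (gg a b)^[p] x = x → x ∈ P0)
    (hM : ∀ η : Polynomial ℂ, η.natDegree ≤ D → ∃ (r R : ℝ) (F : ℂ → ℂ → ℂ), MOT a b P0 η r R F) :
    ∃ (C : ℝ) (X : ℕ → ℂ → ℂ), VP D a b J C X := by
  obtain ⟨L, hLdef⟩ : ∃ L : Set ℂ, L = {x | x ∈ J ∧ ∃ p : ℕ, 0 < p ∧ (gg a b)^[p] x = x} := ⟨_, rfl⟩
  have hLJ : L ⊆ J := by
    rw [hLdef]
    exact fun x hx => hx.1
  have hLP : ∀ x ∈ L, x ∈ P0 := by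
    rw [hLdef]
    rintro x ⟨hx, p, hp, hpx⟩
    exact hL x hx p hp hpx
  have hJL : J ⊆ closure L := by
    intro y hy
    rw [Metric.mem_closure_iff]
    intro ε hε
    obtain ⟨x, hx, hxy, p, hp, hpx⟩ := h.per y hy ε hε
    refine ⟨x, ?_, ?_⟩
    · rw [hLdef]
      exact ⟨hx, p, hp, hpx⟩
    · rw [dist_comm, dist_eq_norm]
      exact hxy
  have hgL : ∀ x ∈ L, gg a b x ∈ L := by
    rw [hLdef]
    rintro x ⟨hx, p, hp, hpx⟩
    refine ⟨h.ns.Ji x hx, p, hp, ?_⟩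
    rw [← Function.iterate_succ_apply, Function.iterate_succ_apply', hpx]
  have hj : ∀ j : ℕ, ∃ (C : ℝ) (V : ℂ → ℂ), 0 ≤ C ∧ (j ≤ D → VJ a b J (X ^ j) C V) := by
    intro j
    by_cases hjD : j ≤ D
    · obtain ⟨r, R, F, hF⟩ := hM (X ^ j) (by rw [natDegree_X_pow]; exact hjD)
      have hF' : MOT a b L (X ^ j) r R F :=
        ⟨hF.hr, hF.hR, fun x hx => hF.dif x (hLP x hx), fun x hx => hF.zer x (hLP x hx),
          fun x hx => hF.bdd x (hLP x hx), fun x hx => hF.vel x (hLP x hx),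
          fun x hx y hy => hF.col x (hLP x hx) y (hLP y hy)⟩
      obtain ⟨h1, h2⟩ := mot_t3 hF'
      have hr := hF.hr
      have hR := hF.hR
      have hC : 0 ≤ max (2 * R / r) (5760 / r) := le_max_of_le_left (by positivity)
      obtain ⟨V, hV1, hV2, hV3, hV4⟩ := ext_j hLJ hJL (fun x hx => vpo_bd h.ns hx) hC
        (vpo_mono h2 (le_max_right _ _)) (fun x hx => (h1 x hx).trans (le_max_left _ _))
      refine ⟨max (2 * R / r) (5760 / r), V, hC, fun _ => ⟨hC, hV3, ?_, hV4⟩⟩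
      have heq : Set.EqOn (fun x => V (gg a b x)) (fun x => Pool.Agent.H61.TT.dg a b x * V x +
          (X ^ j : Polynomial ℂ).eval x / b.eval x ^ 2) L := by
        intro x hx
        show V (gg a b x) = Pool.Agent.H61.TT.dg a b x * V x + (X ^ j : Polynomial ℂ).eval x / b.eval x ^ 2
        rw [hV1 _ (hgL x hx), hV1 x hx]
        exact hF'.vel x hx
      have hc1 : ContinuousOn (fun x => V (gg a b x)) J := hV2.comp (vpo_gc h.ns) fun x hx => h.ns.Ji x hx
      have hc2 : ContinuousOn (fun x => Pool.Agent.H61.TT.dg a b x * V x +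
          (X ^ j : Polynomial ℂ).eval x / b.eval x ^ 2) J :=
        ((vpo_dc h.ns).mul hV2).add (vpo_ec h.ns _)
      exact heq.of_subset_closure hc1 hc2 hLJ hJL
    · exact ⟨0, 0, le_rfl, fun h => absurd h hjD⟩
  choose C V hC hV using hj
  have hsum : ∀ j ≤ D, C j ≤ 1 + ∑ i ∈ Finset.range (D + 1), C i := by
    intro j hjD
    have h1 := Finset.single_le_sum (fun i _ => hC i) (Finset.mem_range.2 (Nat.lt_succ_of_le hjD))
    linarith
  refine ⟨1 + ∑ i ∈ Finset.range (D + 1), C i, V, ?_, ?_, ?_, ?_⟩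
  · have h1 : 0 ≤ ∑ i ∈ Finset.range (D + 1), C i := Finset.sum_nonneg fun i _ => hC i
    linarith
  · exact fun j hjD x hx => ((hV j hjD).bd x hx).trans (hsum j hjD)
  · intro j hjD x hx
    rw [(hV j hjD).eq x hx, eval_pow, eval_X, add_comm]
  · exact fun j hjD => vpo_mono (hV j hjD).tri (hsum j hjD)

theorem vj_lin {C : ℝ} {X : ℕ → ℂ → ℂ} (hV : VP D a b J C X) {η : Polynomial ℂ} (hη : η.natDegree ≤ D) :
    VJ a b J η (C * ∑ j ∈ Finset.range (D + 1), ‖η.coeff j‖) (fun x => ∑ j ∈ Finset.range (D + 1), η.coeff j * X j x) := by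
  have hj : ∀ j ∈ Finset.range (D + 1), j ≤ D := fun j h => Nat.lt_succ_iff.1 (Finset.mem_range.1 h)
  have hC : 0 ≤ C := by linarith [hV.hC]
  refine ⟨mul_nonneg hC (Finset.sum_nonneg fun j _ => norm_nonneg _), ?_, ?_, ?_⟩
  · intro x hx
    rw [Finset.mul_sum]
    refine (norm_sum_le _ _).trans (Finset.sum_le_sum fun j hjm => ?_)
    rw [norm_mul, mul_comm]
    exact mul_le_mul_of_nonneg_right (hV.bd j (hj j hjm) x hx) (norm_nonneg _)
  · intro z hz
    have h1 : η.eval z = ∑ j ∈ Finset.range (D + 1), η.coeff j * z ^ j :=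
      eval_eq_sum_range' (by omega) z
    rw [h1, Finset.mul_sum, Finset.sum_div, ← Finset.sum_add_distrib]
    refine Finset.sum_congr rfl fun j h => ?_
    rw [hV.eq j (hj j h) z hz]
    ring
  · intro x hx y hy z hz hxy hzy
    have e : (∑ j ∈ Finset.range (D + 1), η.coeff j * X j x) - (∑ j ∈ Finset.range (D + 1), η.coeff j * X j y) -
        (x - y) / (z - y) * ((∑ j ∈ Finset.range (D + 1), η.coeff j * X j z) -
          (∑ j ∈ Finset.range (D + 1), η.coeff j * X j y)) = ∑ j ∈ Finset.range (D + 1),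
          η.coeff j * (X j x - X j y - (x - y) / (z - y) * (X j z - X j y)) := by
      rw [← Finset.sum_sub_distrib, ← Finset.sum_sub_distrib, Finset.mul_sum, ← Finset.sum_sub_distrib]
      exact Finset.sum_congr rfl fun j _ => by ring
    show ‖(∑ j ∈ Finset.range (D + 1), η.coeff j * X j x) - (∑ j ∈ Finset.range (D + 1), η.coeff j * X j y) -
        (x - y) / (z - y) * ((∑ j ∈ Finset.range (D + 1), η.coeff j * X j z) -
          (∑ j ∈ Finset.range (D + 1), η.coeff j * X j y))‖ ≤ _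
    rw [e, Finset.mul_sum, Finset.sum_mul, Finset.sum_mul]
    refine (norm_sum_le _ _).trans (Finset.sum_le_sum fun j hjm => ?_)
    rw [norm_mul]
    have h1 := hV.tri j (hj j hjm) x hx y hy z hz hxy hzy
    have h2 := mul_le_mul_of_nonneg_left h1 (norm_nonneg (η.coeff j))
    refine h2.trans (le_of_eq ?_)
    ring

theorem acc_of (h : US0 d D a b J δ0 R0) {c : ℂ} (hcJ : c ∈ J) (hw : (ww a b).eval c = 0) : ∀ ε : ℝ, 0 < ε →
    ∃ x ∈ J, x ≠ c ∧ ‖x - c‖ < ε := by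
  intro ε hε
  obtain ⟨x, hx, hxc, p, hp, hpx⟩ := h.per c hcJ ε hε
  refine ⟨x, hx, ?_, hxc⟩
  rintro rfl
  have h1 := h.ns.rep x hx p hp hpx
  have h2 : tD a b p x = 0 := by
    unfold tD
    refine Finset.prod_eq_zero (Finset.mem_range.2 hp) ?_
    show Pool.Agent.H61.TT.dg a b x = 0
    rw [Pool.Agent.H61.TT.dg, hw, zero_div]
  rw [h2, norm_zero] at h1
  linarith

/-- `g` has a double point at a critical point -/
private theorem vpo_two {c : ℂ} (hb : b.eval c ≠ 0) (hw : (ww a b).eval c = 0) : ∃ C1 : ℝ, 0 ≤ C1 ∧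
    ∀ᶠ z in 𝓝 c, ‖gg a b z - gg a b c‖ ≤ C1 * ‖z - c‖ ^ 2 := by
  have hroot : (C (b.eval c) * a - C (a.eval c) * b).IsRoot c := by
    simp only [IsRoot, eval_sub, eval_mul, eval_C]
    ring
  obtain ⟨q, hq⟩ := dvd_iff_isRoot.2 hroot
  have hq0 : q.IsRoot c := by
    have h1 := congrArg (fun p => (derivative p).eval c) hq
    simp only [derivative_sub, derivative_mul, derivative_C, derivative_X, eval_sub, eval_mul, eval_add, eval_C,
      eval_X, zero_mul, zero_add, sub_zero, sub_self, one_mul, add_zero] at h1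
    rw [IsRoot, ← h1]
    have h2 : (ww a b).eval c = (derivative a).eval c * b.eval c - a.eval c * (derivative b).eval c := by
      simp [ww]
    rw [h2] at hw
    linear_combination hw
  obtain ⟨s, hs⟩ := dvd_iff_isRoot.2 hq0
  have hcont : ContinuousAt (fun z => ‖s.eval z / (b.eval z * b.eval c)‖) c :=
    (s.continuous.continuousAt.div (b.continuous.continuousAt.mul continuousAt_const)
      (mul_ne_zero hb hb)).norm
  refine ⟨‖s.eval c / (b.eval c * b.eval c)‖ + 1, by positivity, ?_⟩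
  have hbz : ∀ᶠ z in 𝓝 c, b.eval z ≠ 0 := b.continuous.continuousAt.eventually_ne hb
  filter_upwards [hbz, hcont.eventually_lt continuousAt_const
    (show ‖s.eval c / (b.eval c * b.eval c)‖ < ‖s.eval c / (b.eval c * b.eval c)‖ + 1 by linarith)] with z hz1 hz2
  have h1 := congrArg (fun p => p.eval z) hq
  rw [hs] at h1
  simp only [eval_sub, eval_mul, eval_C, eval_X] at h1
  have e : gg a b z - gg a b c = s.eval z / (b.eval z * b.eval c) * (z - c) ^ 2 := by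
    rw [gg, gg]
    field_simp
    linear_combination h1
  rw [e, norm_mul, norm_pow]
  exact mul_le_mul_of_nonneg_right hz2.le (by positivity)

private theorem vpo_log {t : ℝ} (h0 : 0 < t) (h1 : t ≤ 1) : t * (1 + |Real.log t|) ≤ 5 * t ^ (3 / 4 : ℝ) := by
  have h2 := Real.abs_log_mul_self_rpow_lt t (1 / 4) h0 h1 (by norm_num)
  have h3 : t = t ^ (3 / 4 : ℝ) * t ^ (1 / 4 : ℝ) := by
    rw [← Real.rpow_add h0]
    norm_num
  have h4 : t ^ (1 / 4 : ℝ) ≤ 1 := Real.rpow_le_one h0.le h1 (by norm_num)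
  have h5 : 0 < t ^ (1 / 4 : ℝ) := Real.rpow_pos_of_pos h0 _
  have h6 : 0 < t ^ (3 / 4 : ℝ) := Real.rpow_pos_of_pos h0 _
  rw [abs_mul, abs_of_pos h5] at h2
  have h7 : t * (1 + |Real.log t|) = t ^ (3 / 4 : ℝ) * (t ^ (1 / 4 : ℝ) + |Real.log t| * t ^ (1 / 4 : ℝ)) := by
    nth_rewrite 1 [h3]
    ring
  rw [h7, mul_comm (5 : ℝ)]
  refine mul_le_mul_of_nonneg_left ?_ h6.le
  norm_num at h2
  linarith

/-- a velocity on `J` is log-Lipschitz -/
private theorem vpo_ll (h : US0 d D a b J δ0 R0) {η : Polynomial ℂ} {C : ℝ} {V : ℂ → ℂ} (hV : VJ a b J η C V) {c : ℂ}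
    (hcJ : c ∈ J) (hw : (ww a b).eval c = 0) : ∃ C' : ℝ, 0 ≤ C' ∧ ∀ x ∈ J, ∀ y ∈ J, ‖x - y‖ ≤ 1 →
      ‖V x - V y‖ ≤ C' * ‖x - y‖ ^ (3 / 4 : ℝ) := by
  obtain ⟨p2, hp2, hpc, -⟩ := acc_of h hcJ hw 1 one_pos
  obtain ⟨C', hC', h1⟩ := t3_ll hV.hC hV.tri hV.bd (fun x hx => vpo_bd h.ns hx) hp2 hcJ hpc
  refine ⟨C' * 5, by positivity, fun x hx y hy hxy => ?_⟩
  by_cases hxy' : x = y
  · rw [hxy', sub_self, norm_zero]
    positivity
  · have h2 := h1 x hx y hy hxy'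
    have h3 := vpo_log (norm_pos_iff.2 (sub_ne_zero.2 hxy')) hxy
    rw [mul_assoc] at h2 ⊢
    exact h2.trans (mul_le_mul_of_nonneg_left h3 hC')

private theorem vpo_cont (h : US0 d D a b J δ0 R0) {η : Polynomial ℂ} {C : ℝ} {V : ℂ → ℂ} (hV : VJ a b J η C V) {c : ℂ}
    (hcJ : c ∈ J) (hw : (ww a b).eval c = 0) : ContinuousWithinAt V J c := by
  obtain ⟨C', hC', h1⟩ := vpo_ll h hV hcJ hw
  rw [ContinuousWithinAt, tendsto_iff_norm_sub_tendsto_zero]
  have hK : Tendsto (fun z : ℂ => C' * ‖z - c‖ ^ (3 / 4 : ℝ)) (𝓝[J] c) (𝓝 0) := by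
    have h2 : Continuous (fun z : ℂ => C' * ‖z - c‖ ^ (3 / 4 : ℝ)) :=
      continuous_const.mul ((continuous_id.sub continuous_const).norm.rpow_const fun _ => Or.inr (by norm_num))
    have h3 := h2.tendsto c
    rw [sub_self, norm_zero, Real.zero_rpow (by norm_num), mul_zero] at h3
    exact h3.mono_left nhdsWithin_le_nhds
  refine squeeze_zero' (Eventually.of_forall fun z => norm_nonneg _) ?_ hK
  have h4 : ∀ᶠ z in 𝓝[J] c, ‖z - c‖ < 1 := by
    refine mem_nhdsWithin_of_mem_nhds ?_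
    filter_upwards [ball_mem_nhds c one_pos] with z hz
    rw [← dist_eq_norm]
    exact hz
  filter_upwards [self_mem_nhdsWithin, h4] with z hz hz1
  exact h1 z hz c hcJ hz1.le

private theorem vpo_der0 (h : US0 d D a b J δ0 R0) {η : Polynomial ℂ} {C : ℝ} {V : ℂ → ℂ} (hV : VJ a b J η C V) {c : ℂ}
    (hcJ : c ∈ J) (hw : (ww a b).eval c = 0) : HasDerivWithinAt (fun z => V (gg a b z)) 0 J c := by
  obtain ⟨C1, hC1, h1⟩ := vpo_two (h.ns.Jn c hcJ) hw
  obtain ⟨C', hC', hl⟩ := vpo_ll h hV hcJ hw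
  rw [hasDerivWithinAt_iff_isLittleO, Asymptotics.isLittleO_iff]
  intro ε hε
  have hK : Tendsto (fun z : ℂ => C' * (C1 ^ (3 / 4 : ℝ) * √‖z - c‖)) (𝓝 c) (𝓝 0) := by
    have h2 : Continuous (fun z : ℂ => C' * (C1 ^ (3 / 4 : ℝ) * √‖z - c‖)) := by fun_prop
    have h3 := h2.tendsto c
    simpa using h3
  have hK2 : Tendsto (fun z : ℂ => C1 * ‖z - c‖ ^ 2) (𝓝 c) (𝓝 0) := by
    have h2 : Continuous (fun z : ℂ => C1 * ‖z - c‖ ^ 2) := by fun_prop
    have h3 := h2.tendsto c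
    simpa using h3
  filter_upwards [mem_nhdsWithin_of_mem_nhds h1, mem_nhdsWithin_of_mem_nhds (hK.eventually_lt_const hε),
    mem_nhdsWithin_of_mem_nhds (hK2.eventually_lt_const one_pos), self_mem_nhdsWithin] with z hz1 hz2 hz3 hzJ
  rw [smul_zero, sub_zero]
  have ht1 : ‖gg a b z - gg a b c‖ ≤ 1 := by linarith
  have h5 := hl _ (h.ns.Ji z hzJ) _ (h.ns.Ji c hcJ) ht1
  have h7 : ‖gg a b z - gg a b c‖ ^ (3 / 4 : ℝ) ≤ C1 ^ (3 / 4 : ℝ) * √‖z - c‖ * ‖z - c‖ := by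
    refine (Real.rpow_le_rpow (norm_nonneg _) hz1 (by norm_num)).trans (le_of_eq ?_)
    rw [Real.mul_rpow hC1 (by positivity), mul_assoc]
    congr 1
    have hu : 0 ≤ ‖z - c‖ := norm_nonneg _
    generalize ‖z - c‖ = u at hu
    rw [Real.sqrt_eq_rpow, ← Real.rpow_natCast, ← Real.rpow_mul hu]
    rcases hu.eq_or_lt with rfl | hu
    · rw [mul_zero, Real.zero_rpow (by norm_num)]
    · nth_rewrite 3 [← Real.rpow_one u]
      rw [← Real.rpow_add hu]
      norm_num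
  calc ‖V (gg a b z) - V (gg a b c)‖ ≤ _ := h5
    _ ≤ C' * (C1 ^ (3 / 4 : ℝ) * √‖z - c‖ * ‖z - c‖) := mul_le_mul_of_nonneg_left h7 hC'
    _ = (C' * (C1 ^ (3 / 4 : ℝ) * √‖z - c‖)) * ‖z - c‖ := by ring
    _ ≤ ε * ‖z - c‖ := mul_le_mul_of_nonneg_right hz2.le (norm_nonneg _)

/-- a product with a continuous function at a zero -/
private theorem vpo_mul {S : Set ℂ} {f V : ℂ → ℂ} {c f' : ℂ} (hf : HasDerivAt f f' c) (h0 : f c = 0)
    (hV : ContinuousWithinAt V S c) : HasDerivWithinAt (fun z => f z * V z) (f' * V c) S c := by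
  rw [hasDerivWithinAt_iff_tendsto_slope]
  rw [hasDerivAt_iff_tendsto_slope] at hf
  have h2 : 𝓝[S \ {c}] c ≤ 𝓝[≠] c := nhdsWithin_mono c fun x hx => hx.2
  have h1 := (hf.mono_left h2).mul (hV.tendsto.mono_left (nhdsWithin_mono c Set.sdiff_subset))
  refine h1.congr fun z => ?_
  simp only [slope_def_field, h0]
  ring

theorem vj_crit (h : US0 d D a b J δ0 R0) {η : Polynomial ℂ} {C : ℝ} {V : ℂ → ℂ} (hV : VJ a b J η C V) {c : ℂ} (hcJ : c ∈ J)
    (hw : (ww a b).eval c = 0) :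
    (derivative (ww a b)).eval c / b.eval c ^ 2 * V c + deriv (fun z => η.eval z / b.eval z ^ 2) c = 0 := by
  have hb := h.ns.Jn c hcJ
  have h0 := vpo_der0 h hV hcJ hw
  have hb2 : b.eval c ^ 2 ≠ 0 := pow_ne_zero _ hb
  have h1 : HasDerivAt (fun z => Pool.Agent.H61.TT.dg a b z) ((derivative (ww a b)).eval c / b.eval c ^ 2) c := by
    have h2 := ((ww a b).hasDerivAt c).div ((b.hasDerivAt c).pow 2) hb2
    refine h2.congr_deriv ?_
    rw [hw]
    simp only [Pi.pow_apply]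
    field_simp
    ring
  have h3 : DifferentiableAt ℂ (fun z => η.eval z / b.eval z ^ 2) c :=
    η.differentiableAt.div (b.differentiableAt.pow 2) hb2
  have h4 : Pool.Agent.H61.TT.dg a b c = 0 := by
    rw [Pool.Agent.H61.TT.dg, hw, zero_div]
  have h5 := (vpo_mul h1 h4 (vpo_cont h hV hcJ hw)).add h3.hasDerivAt.hasDerivWithinAt
  have h6 : ∀ z ∈ J, V (gg a b z) = Pool.Agent.H61.TT.dg a b z * V z + η.eval z / b.eval z ^ 2 := hV.eq
  have hu : UniqueDiffWithinAt ℂ J c := by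
    rw [uniqueDiffWithinAt_iff_accPt, accPt_iff_nhds]
    intro U hU
    obtain ⟨ε, hε, hεU⟩ := Metric.mem_nhds_iff.1 hU
    obtain ⟨x, hx, hxc, hx2⟩ := acc_of h hcJ hw ε hε
    refine ⟨x, ⟨hεU ?_, hx⟩, hxc⟩
    rw [mem_ball, dist_eq_norm]
    exact hx2
  exact hu.eq_deriv _ (h5.congr h6 (h6 c hcJ)) h0

theorem sim_p (h : US0 d D a b J δ0 R0) {C : ℝ} {X : ℕ → ℂ → ℂ} (hV : VP D a b J C X) {c : ℂ} (hcJ : c ∈ J)
    (hw : (ww a b).eval c = 0) : (derivative (ww a b)).eval c ≠ 0 := by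
  intro h0
  have h1 := vj_crit h (vj_lin hV (η := Polynomial.X - Polynomial.C c) (by rw [natDegree_X_sub_C]; exact h.hD)) hcJ hw
  rw [h0, zero_div, zero_mul, zero_add] at h1
  have hb := h.ns.Jn c hcJ
  have hb2 : b.eval c ^ 2 ≠ 0 := pow_ne_zero _ hb
  have h2 : HasDerivAt (fun z => (Polynomial.X - Polynomial.C c : Polynomial ℂ).eval z / b.eval z ^ 2)
      (1 / b.eval c ^ 2) c := by
    have h3 := ((Polynomial.X - Polynomial.C c : Polynomial ℂ).hasDerivAt c).div ((b.hasDerivAt c).pow 2) hb2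
    refine h3.congr_deriv ?_
    simp only [Pi.pow_apply, derivative_sub, derivative_X, derivative_C, eval_sub, eval_one, eval_X, eval_C,
      sub_self, sub_zero, zero_mul, one_mul]
    field_simp
  rw [h2.deriv] at h1
  exact (one_div_ne_zero hb2) h1

end Pool.Agent.H83.UP
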