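import Pool.Agent.H83.UP.KP1
import Pool.Agent.H83.UP.VPO

/-!
# [H83 UP KP2] THEOREM UP (MP_8f2e1c_an): the push forward identities for the kernel, Julia set not the sphere

`KQ x w = qq x w + ∑_j hh j w * X j x` (`X j`: the velocity on `J` for `X ^ j`, `VP`). Let `w` be such that `LgP D a b w η`, `η = ∑_j C (hh j w) X ^ j`, and `w ≠ gg x`; `Vη x = ∑_j hh j w * X j x` (`η.coeff j = hh j w` for `j ≤ D`) is a velocity: `VJ a b J η _ Vη` (`vj_lin`).
The proofs are those of `step_s`, `val0_s`, `crit_s` (H66/UP/KS3) with `KA` replaced by `qq`, `VelP` by `VJ` (points of `J` only), `velp_crit` by `vj_crit` (VPO); `qq z w = 1 / (w - z)` is differentiable in `z ≠ w`.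
`step_p`: `LgP` at `x`: `dg x * pf (qq x) w = qq (gg x) w + η x / b x ^ 2`, and `Vη (gg x) = dg x * Vη x + η x / b x ^ 2`: subtract and divide by `dg x`.
`val0_p`: `LgP` at `c`: `0 = qq (gg c) w + η c / b c ^ 2` and `Vη (gg c) = η c / b c ^ 2` (`dg c = 0`).
`crit_p`: for `z` near `c`: `dg z * pf (qq z) w = qq (gg z) w + η z / b z ^ 2`. Derivative at `c`: left side `dg'(c) * pf (qq c) w` (`dg c = 0`), right side `0 + E'(c)`. `vj_crit`: `dg'(c) Vη c + E'(c) = 0`. So `pf (qq c) w = - Vη c` (`dg'(c) ≠ 0`: `sim_p`).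
-/

set_option autoImplicit false

open Filter Topology Polynomial Metric Set MeasureTheory

namespace Pool.Agent.H83.UP

open Pool.Agent.H61.TT Pool.Agent.H57.CP Pool.Agent.H3.NC Pool.Agent.H78.NS Pool.Agent.H31.NS Pool.Agent.H18.UP

variable {d D : ℕ} {a b : Polynomial ℂ} {J : Set ℂ} {δ0 R0 : ℝ}

/-- the kernel with the velocities -/
noncomputable def KQ (N : ℕ) (hh X : ℕ → ℂ → ℂ) (x w : ℂ) : ℂ :=
  qq x w + ∑ j ∈ Finset.range (N + 1), hh j w * X j x

private theorem kp_coeff {N : ℕ} (β : ℕ → ℂ) {j : ℕ} (hj : j ∈ Finset.range (N + 1)) :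
    (∑ i ∈ Finset.range (N + 1), C (β i) * X ^ i : Polynomial ℂ).coeff j = β j := by
  rw [finsetSum_coeff, Finset.sum_eq_single j]
  · rw [coeff_C_mul, coeff_X_pow, if_pos rfl, mul_one]
  · intro i _ hi
    rw [coeff_C_mul, coeff_X_pow, if_neg (fun h => hi h.symm), mul_zero]
  · intro h
    exact absurd hj h

private theorem kp_vj {C0 : ℝ} {V : ℕ → ℂ → ℂ} (hV : VP D a b J C0 V) {hh : ℕ → ℂ → ℂ} {w : ℂ}
    (hw : LgP D a b w (∑ j ∈ Finset.range (D + 1), C (hh j w) * X ^ j)) :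
    ∃ C1 : ℝ, VJ a b J (∑ j ∈ Finset.range (D + 1), C (hh j w) * X ^ j) C1
      (fun x => ∑ j ∈ Finset.range (D + 1), hh j w * V j x) := by
  have h1 := vj_lin hV hw.1
  have h2 : (fun x => ∑ j ∈ Finset.range (D + 1), hh j w * V j x) =
      (fun x => ∑ j ∈ Finset.range (D + 1),
        (∑ j ∈ Finset.range (D + 1), C (hh j w) * X ^ j : Polynomial ℂ).coeff j * V j x) := by
    funext x
    refine Finset.sum_congr rfl fun j hj => ?_
    rw [kp_coeff (fun i => hh i w) hj]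
  rw [h2]
  exact ⟨_, h1⟩

private theorem kp_ne (p : ℂ) : ∀ᵐ w : ℂ, w ≠ p := compl_mem_ae_iff.2 (measure_singleton p)

theorem step_p (h : US0 d D a b J δ0 R0) {C0 : ℝ} {V : ℕ → ℂ → ℂ} (hV : VP D a b J C0 V) {hh : ℕ → ℂ → ℂ}
    (hl : ∀ᵐ w : ℂ, LgP D a b w (∑ j ∈ Finset.range (D + 1), C (hh j w) * X ^ j)) {x : ℂ} (hxJ : x ∈ J)
    (hx : dg a b x ≠ 0) : ∀ᵐ w : ℂ, qq x w - pf a b (qq x) w = KQ D hh V x w - KQ D hh V (gg a b x) w / dg a b x := by
  have hb := h.ns.Jn x hxJ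
  filter_upwards [hl, kp_ne (gg a b x)] with w hw hne
  have h1 := hw.2 x hb (Ne.symm hne)
  obtain ⟨C1, hvj⟩ := kp_vj hV hw
  have h2 := hvj.eq x hxJ
  unfold KQ
  rw [h2]
  have h3 : qq (gg a b x) w = dg a b x * pf a b (qq x) w -
      (∑ j ∈ Finset.range (D + 1), C (hh j w) * X ^ j : Polynomial ℂ).eval x / b.eval x ^ 2 := by
    rw [h1]; ring
  rw [h3]
  field_simp
  ring

theorem val0_p (h : US0 d D a b J δ0 R0) {C0 : ℝ} {V : ℕ → ℂ → ℂ} (hV : VP D a b J C0 V) {hh : ℕ → ℂ → ℂ}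
    (hl : ∀ᵐ w : ℂ, LgP D a b w (∑ j ∈ Finset.range (D + 1), C (hh j w) * X ^ j)) {c : ℂ} (hcJ : c ∈ J)
    (hc : (ww a b).eval c = 0) : ∀ᵐ w : ℂ, KQ D hh V (gg a b c) w = 0 := by
  have hbc := h.ns.Jn c hcJ
  have hdc : dg a b c = 0 := by
    unfold dg
    rw [hc, zero_div]
  filter_upwards [hl, kp_ne (gg a b c)] with w hw hne
  have h1 := hw.2 c hbc (Ne.symm hne)
  obtain ⟨C1, hvj⟩ := kp_vj hV hw
  have h2 := hvj.eq c hcJ
  unfold KQ
  rw [h2, hdc, zero_mul, zero_add]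
  rw [hdc, zero_mul] at h1
  exact h1.symm

theorem crit_p (h : US0 d D a b J δ0 R0) {C0 : ℝ} {V : ℕ → ℂ → ℂ} (hV : VP D a b J C0 V) {hh : ℕ → ℂ → ℂ}
    (hl : ∀ᵐ w : ℂ, LgP D a b w (∑ j ∈ Finset.range (D + 1), C (hh j w) * X ^ j)) {c : ℂ} (hcJ : c ∈ J)
    (hc : (ww a b).eval c = 0) : ∀ᵐ w : ℂ, qq c w - pf a b (qq c) w = KQ D hh V c w := by
  have hs := sim_p h hV hcJ hc
  have hbc := h.ns.Jn c hcJ
  have hdc : dg a b c = 0 := by
    unfold dg
    rw [hc, zero_div]
  have hbc2 : b.eval c ^ 2 ≠ 0 := pow_ne_zero 2 hbc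
  -- the derivative of `dg`
  have hD : HasDerivAt (dg a b) ((derivative (ww a b)).eval c / b.eval c ^ 2) c := by
    have h1 := ((ww a b).hasDerivAt c).div ((b.hasDerivAt c).pow 2) hbc2
    have e : ((derivative (ww a b)).eval c * b.eval c ^ 2 -
        (ww a b).eval c * (2 * b.eval c ^ (2 - 1) * (derivative b).eval c)) / (b.eval c ^ 2) ^ 2 =
        (derivative (ww a b)).eval c / b.eval c ^ 2 := by
      rw [hc, zero_mul, sub_zero]
      field_simp
    have h2 := h1.congr_deriv (by simpa using e)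
    exact h2
  have hg : HasDerivAt (gg a b) 0 c := by
    have h1 := (hasStrictDerivAt_gg (a := a) (b := b) hbc).hasDerivAt
    rwa [hdc] at h1
  filter_upwards [hl, kp_ne (gg a b c)] with w hw hne
  obtain ⟨C1, hvel⟩ := kp_vj hV hw
  have hcr := vj_crit h hvel hcJ hc
  obtain ⟨η, hη⟩ : ∃ η : Polynomial ℂ, η = ∑ j ∈ Finset.range (D + 1), C (hh j w) * X ^ j :=
    ⟨_, rfl⟩
  rw [← hη] at hw hvel hcr
  -- the right side
  have hE : HasDerivAt (fun z => η.eval z / b.eval z ^ 2)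
      (deriv (fun z => η.eval z / b.eval z ^ 2) c) c := by
    have h1 : DifferentiableAt ℂ (fun z => η.eval z / b.eval z ^ 2) c :=
      η.differentiable.differentiableAt.div (b.differentiable.differentiableAt.pow 2) hbc2
    exact h1.hasDerivAt
  have hK : HasDerivAt (fun z => qq (gg a b z) w) 0 c := by
    have h1 : DifferentiableAt ℂ (fun u : ℂ => qq u w) (gg a b c) := by
      unfold qq
      exact DifferentiableAt.div (by fun_prop) (by fun_prop) (sub_ne_zero.2 hne)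
    have h2 := h1.hasDerivAt.comp c hg
    rw [mul_zero] at h2
    exact h2
  have hR := hK.add hE
  rw [zero_add] at hR
  -- the left side
  have hP : ContinuousAt (fun z => pf a b (qq z) w) c := by
    unfold pf
    refine tendsto_finsetSum _ fun y hy => ?_
    have hy2 := ((Pool.Agent.H61.TT.mem_fs h.ns.rt w y).1 hy).2
    have hyc : y - c ≠ 0 := by
      intro h0
      rw [sub_eq_zero.1 h0] at hy2
      exact hne hy2.symm
    have h2 : ContinuousAt (fun z : ℂ => qq z y / dg a b y ^ 2) c := by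
      refine ContinuousAt.div_const ?_ _
      unfold qq
      exact ContinuousAt.div continuousAt_const (by fun_prop) hyc
    exact h2
  have hL : HasDerivAt (fun z => dg a b z * pf a b (qq z) w)
      ((derivative (ww a b)).eval c / b.eval c ^ 2 * pf a b (qq c) w) c := by
    rw [hasDerivAt_iff_tendsto_slope]
    have h1 := hasDerivAt_iff_tendsto_slope.1 hD
    have h2 := h1.mul (hP.tendsto.mono_left nhdsWithin_le_nhds)
    refine h2.congr fun z => ?_
    simp only [slope, vsub_eq_sub, smul_eq_mul, hdc, zero_mul, sub_zero]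
    ring
  -- equality near `c`
  have hev : (fun z => dg a b z * pf a b (qq z) w) =ᶠ[𝓝 c]
      (fun z => qq (gg a b z) w) + fun z => η.eval z / b.eval z ^ 2 := by
    have h1 : ∀ᶠ z in 𝓝 c, b.eval z ≠ 0 := b.continuous.continuousAt.eventually_ne hbc
    have h2 : ∀ᶠ z in 𝓝 c, gg a b z ≠ w :=
      hg.continuousAt.eventually_ne (Ne.symm hne)
    filter_upwards [h1, h2] with z hz1 hz2
    exact hw.2 z hz1 hz2
  have hL2 := hL.congr_of_eventuallyEq hev.symm
  have hu := hL2.unique hR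
  -- the end
  have hD0 : (derivative (ww a b)).eval c / b.eval c ^ 2 ≠ 0 := div_ne_zero hs hbc2
  have h5 : (derivative (ww a b)).eval c / b.eval c ^ 2 *
      (pf a b (qq c) w + ∑ j ∈ Finset.range (D + 1), hh j w * V j c) = 0 := by
    rw [mul_add, hu]
    rw [add_comm]
    exact hcr
  have h6 := (mul_eq_zero.1 h5).resolve_left hD0
  unfold KQ
  linear_combination (-1 : ℂ) * h6

end Pool.Agent.H83.UP
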