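import Pool.Agent.H83.UP.MLN
import Pool.Agent.H83.UP.PD
import Pool.Agent.H61.TT.Surj

/-!
# [H83 UP MTU] THEOREM UP (MP_8f2e1c_an): motions of the repelling cycles, all rational maps

PROOF. Copy of `vel` (H44/CP/MVL), with `mot_line` (MLN) in place of `vel_line`: the ball of maps without neutral cycles, the bound `R`, the radius `r = ε / (2 (‖w‖ + 1))` are the same. The direction `η / b ^ 2`: `xi_surj` (see `vbd_up`, H64/NC/PAS): `w'` with `xi v0 w' x = η x / b x ^ 2`.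
-/

set_option autoImplicit false

open Filter Topology Polynomial Metric Set

namespace Pool.Agent.H83.UP

open Pool.Agent.H44.Fatou Pool.Agent.H32.BT Pool.Agent.H79.Eul Pool.Agent.H79.Par
open Pool.Agent.H79.ES Pool.Agent.H47.NN Pool.Agent.H44.ND Pool.Agent.H44.NP Pool.Agent.H44.CP
open Pool.Agent.H61.TT (gg dg ww)

variable {d : ℕ}

theorem mot_up (hd : 2 ≤ d) {v : E d} (hcop : IsCoprime (pol v.1) (pol v.2))
    (hdeg : max (pol v.1).natDegree (pol v.2).natDegree = d) (hup : ¬ Up v)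
    (hinf : Att (Rf v) OnePoint.infty) {η : Polynomial ℂ} (hη : η.natDegree ≤ 2 * d) :
    ∃ (r R : ℝ) (F : ℂ → ℂ → ℂ), MOT (pol v.1) (pol v.2) (PP v) η r R F := by
  obtain ⟨v0, hv0⟩ : ∃ v0 : E d, v0 = v := ⟨v, rfl⟩
  rw [← hv0] at hcop hdeg hup hinf ⊢
  -- a ball without neutral cycles
  obtain ⟨ε0, hε0, hno⟩ : ∃ ε : ℝ, 0 < ε ∧ ∀ w ∈ ball v0 ε, IsCoprime (pol w.1) (pol w.2) →
      max (pol w.1).natDegree (pol w.2).natDegree = d → NA w ≤ NA v0 := by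
    unfold Up at hup
    push Not at hup
    obtain ⟨ε, hε, h⟩ := hup
    exact ⟨ε, hε, fun w hw h1 h2 => Nat.lt_succ_iff.1 (h w hw h1 h2)⟩
  obtain ⟨W, hW, hWv⟩ := att_pers hd hcop hdeg hinf
  have hev : ∀ᶠ v in 𝓝 v0, (∀ z ∈ W, Att (Rf v) z) ∧ (IsCoprime (pol v.1) (pol v.2) ∧
      max (pol v.1).natDegree (pol v.2).natDegree = d) ∧ NA v0 ≤ NA v :=
    hWv.and ((cop_near hcop hdeg (by omega)).and (na_low hd hcop hdeg))
  obtain ⟨ε1, hε1, hall⟩ := Metric.eventually_nhds_iff_ball.1 hev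
  obtain ⟨ε, hεd⟩ : ∃ ε, ε = min ε0 ε1 := ⟨_, rfl⟩
  have hε : 0 < ε := by rw [hεd]; exact lt_min hε0 hε1
  have hno' : ∀ v ∈ ball v0 ε, ¬ Up v := by
    intro v hv hu
    rw [hεd] at hv
    have hv1 := hall v (ball_subset_ball (min_le_right _ _) hv)
    obtain ⟨δ, hδ, hδb⟩ := Metric.isOpen_iff.1 isOpen_ball v (ball_subset_ball (min_le_left _ _) hv)
    obtain ⟨w, hw, h1, h2, h3⟩ := hu δ hδ
    have h4 := hno w (hδb hw) h1 h2
    have h5 := hv1.2.2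
    omega
  have hvn : ∀ v ∈ ball v0 ε, ∀ p : ℕ, 0 < p → ∀ x m, Cyc (pol v.1) (pol v.2) p x m → ‖m‖ ≠ 1 := by
    intro v hv p hp x m hc hm
    have hv1 := hall v (ball_subset_ball (by rw [hεd]; exact min_le_right _ _) hv)
    exact hno' v hv (neu_up hd hv1.2.1.1 hv1.2.1.2 hp hc hm)
  -- the bound
  obtain ⟨R, hRp, hRW⟩ : ∃ R : ℝ, 0 < R ∧ ∀ z : ℂ, R < ‖z‖ → (z : OnePoint ℂ) ∈ W := by
    have h1 : Tendsto (fun z : ℂ => (z : OnePoint ℂ)) (Filter.cocompact ℂ) (𝓝 OnePoint.infty) := by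
      rw [← Filter.coclosedCompact_eq_cocompact]
      exact OnePoint.tendsto_coe_infty
    have h2 : ∀ᶠ z : ℂ in Filter.cocompact ℂ, (z : OnePoint ℂ) ∈ W := h1.eventually hW
    rw [← Metric.cobounded_eq_cocompact,
      (Metric.hasBasis_cobounded_compl_closedBall (0 : ℂ)).eventually_iff] at h2
    obtain ⟨R0, -, hR0⟩ := h2
    refine ⟨max R0 1, lt_of_lt_of_le one_pos (le_max_right _ _), fun z hz => hR0 ?_⟩
    intro h3
    exact (mem_closedBall_zero_iff.1 h3).not_gt ((le_max_left _ _).trans_lt hz)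
  have hbd : ∀ v ∈ ball v0 ε, ∀ p : ℕ, 0 < p → ∀ x m, Cyc (pol v.1) (pol v.2) p x m → 1 ≤ ‖m‖ →
      ∀ i, i ≤ p → ‖x i‖ ≤ R := by
    intro v hv p hp x m hc hm i hi
    have hv1 := hall v (ball_subset_ball (by rw [hεd]; exact min_le_right _ _) hv)
    by_contra hlt
    exact big_na_all hd hv1.2.1.1 hv1.2.1.2 hp hc hm hi (hv1.1 _ (hRW _ (not_le.1 hlt)))
  obtain ⟨w, hxi⟩ := Pool.Agent.H61.TT.xi_surj (v0 := v0) ⟨hd, hcop, hdeg⟩ hη
  obtain ⟨r, hrd⟩ : ∃ r, r = ε / (2 * (‖w‖ + 1)) := ⟨_, rfl⟩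
  have hw0 : 0 < ‖w‖ + 1 := by positivity
  have hr : 0 < r := by rw [hrd]; positivity
  have hvb : ∀ t : ℂ, ‖t‖ ≤ r → v0 + t • w ∈ ball v0 ε := by
    intro t ht
    rw [mem_ball_iff_norm, add_sub_cancel_left, norm_smul]
    rw [hrd, le_div_iff₀ (by positivity)] at ht
    have h1 := norm_nonneg t
    have h2 := norm_nonneg w
    nlinarith
  obtain ⟨F, h1, h2⟩ := mot_line (v0 := v0) (w := w) (R := R) hr
    (fun t ht => (hall _ (ball_subset_ball (by rw [hεd]; exact min_le_right _ _) (hvb t ht))).2.1.1)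
    (fun t ht p hp x m hc => hvn _ (hvb t ht) p hp x m hc)
    (fun t ht p hp x m hc hm => hbd _ (hvb t ht) p hp x m hc hm)
  refine ⟨r, R, F, hr, hRp, fun x hx => (h1 x hx).1, fun x hx => (h1 x hx).2.1, fun x hx => (h1 x hx).2.2.1,
    fun x hx => ?_, h2⟩
  rw [(h1 x hx).2.2.2, hxi]

end Pool.Agent.H83.UP
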