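import Pool.Agent.H44.CP.MVL
import Pool.Agent.H64.NC.PAS

/-!
# [H83 UP MLN] THEOREM UP (MP_8f2e1c_an): the repelling cycles move holomorphically along a line of maps without neutral cycles

`PP v`: the points of the plane on cycles with multiplier of modulus at least one.  `mot_line`: along the line `v0 + t w`, `‖t‖ < r`, they move holomorphically, without collisions, in the disc of radius `R`; the velocities satisfy
the functional equation.  PROOF. `ks_sel`, `ks_loc` (H44/CP/MKC): `KS p` is contained in `KS (p k)` and invariant under the maps; two selections which agree at one parameter agree near it, so everywhere.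
-/

set_option autoImplicit false

open Filter Topology Polynomial Metric Set

namespace Pool.Agent.H83.UP

open Pool.Agent.H44.Fatou Pool.Agent.H32.BT Pool.Agent.H79.Eul Pool.Agent.H79.Par
open Pool.Agent.H79.ES Pool.Agent.H47.NN Pool.Agent.H44.ND Pool.Agent.H44.NP Pool.Agent.H44.CP
open Pool.Agent.H61.TT (gg dg)

variable {d : ℕ}

/-- the points on cycles with multiplier of modulus at least one -/
def PP (v : E d) : Set ℂ :=
  {z | ∃ (p : ℕ) (x : ℕ → ℂ) (m : ℂ), 0 < p ∧ Cyc (pol v.1) (pol v.2) p x m ∧ 1 ≤ ‖m‖ ∧ x 0 = z}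

theorem wi_per {v : E d} {z : ℂ} {p : ℕ} (h : wi p (v, z) = z) : Function.Periodic (fun i => wi i (v, z)) p := by
  intro i
  induction i with
  | zero =>
    show wi (0 + p) (v, z) = wi 0 (v, z)
    rw [zero_add, h]
    rfl
  | succ i ih =>
    have h1 : wi (i + p) (v, z) = wi i (v, z) := ih
    show wi (i + 1 + p) (v, z) = wi (i + 1) (v, z)
    rw [show i + 1 + p = i + p + 1 by omega]
    show (pol v.1).eval (wi (i + p) (v, z)) / (pol v.2).eval (wi (i + p) (v, z)) =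
      (pol v.1).eval (wi i (v, z)) / (pol v.2).eval (wi i (v, z))
    rw [h1]

theorem wi_shift {v : E d} {z : ℂ} (i : ℕ) : wi i (v, wi 1 (v, z)) = wi (i + 1) (v, z) := by
  induction i with
  | zero => rfl
  | succ i ih =>
    show (pol v.1).eval (wi i (v, wi 1 (v, z))) / (pol v.2).eval (wi i (v, wi 1 (v, z))) =
      (pol v.1).eval (wi (i + 1) (v, z)) / (pol v.2).eval (wi (i + 1) (v, z))
    rw [ih]

theorem ks_mul {v0 w : E d} {p : ℕ} {r R : ℝ} (hp : 0 < p) {t z : ℂ} (h : (t, z) ∈ KS v0 w p r R) (k : ℕ) :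
    (t, z) ∈ KS v0 w (p * k) r R := by
  obtain ⟨h1, h2, h3, h4, h5⟩ := h
  have hper := wi_per h3
  have hmod : ∀ i, wi i (v0 + t • w, z) = wi (i % p) (v0 + t • w, z) := fun i => (hper.map_mod_nat i).symm
  refine ⟨h1, ?_, ?_, ?_, ?_⟩
  · intro i _
    show (pol (v0 + t • w).2).eval (wi i (v0 + t • w, z)) ≠ 0
    rw [hmod i]
    exact h2 _ (Nat.mod_lt _ hp)
  · show wi (p * k) (v0 + t • w, z) = z
    rw [hmod, Nat.mul_mod_right]
    rfl
  · show 1 ≤ ‖mu (p * k) (v0 + t • w, z)‖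
    have h6 : mu (p * k) (v0 + t • w, z) = mu p (v0 + t • w, z) ^ k := by
      unfold mu
      induction k with
      | zero => rw [mul_zero, Finset.range_zero, Finset.prod_empty, pow_zero]
      | succ k ih =>
        rw [mul_add, mul_one, Finset.prod_range_add, ih, pow_succ]
        congr 1
        refine Finset.prod_congr rfl fun i _ => ?_
        have h7 : wi (p * k + i) (v0 + t • w, z) = wi i (v0 + t • w, z) := by
          rw [hmod (p * k + i), hmod i, Nat.mul_add_mod]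
        rw [h7]
    rw [h6, norm_pow]
    exact one_le_pow₀ h4
  · intro i _
    show ‖wi i (v0 + t • w, z)‖ ≤ R
    rw [hmod i]
    exact h5 _ (Nat.mod_lt _ hp).le

theorem ks_shift {v0 w : E d} {p : ℕ} {r R : ℝ} (hp : 0 < p) {t z : ℂ} (h : (t, z) ∈ KS v0 w p r R) :
    (t, wi 1 (v0 + t • w, z)) ∈ KS v0 w p r R := by
  obtain ⟨h1, h2, h3, h4, h5⟩ := h
  have hper := wi_per h3
  have hp0 : wi p (v0 + t • w, z) = wi 0 (v0 + t • w, z) := h3
  have hp1 : wi (p + 1) (v0 + t • w, z) = wi 1 (v0 + t • w, z) := by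
    have := hper 1
    simp only [] at this
    rw [add_comm 1 p] at this
    exact this
  refine ⟨h1, ?_, ?_, ?_, ?_⟩
  · intro i hi
    show (pol (v0 + t • w).2).eval (wi i (v0 + t • w, wi 1 (v0 + t • w, z))) ≠ 0
    rw [wi_shift]
    rcases Nat.lt_or_ge (i + 1) p with h6 | h6
    · exact h2 _ h6
    · have h7 : i + 1 = p := by omega
      rw [h7, hp0]
      exact h2 0 hp
  · show wi p (v0 + t • w, wi 1 (v0 + t • w, z)) = _
    rw [wi_shift, hp1]
  · show 1 ≤ ‖mu p (v0 + t • w, wi 1 (v0 + t • w, z))‖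
    have h6 : mu p (v0 + t • w, wi 1 (v0 + t • w, z)) = mu p (v0 + t • w, z) := by
      obtain ⟨f, hf⟩ : ∃ f : ℂ → ℂ, f = fun y => (Wr (pol (v0 + t • w).1) (pol (v0 + t • w).2)).eval y /
          ((pol (v0 + t • w).2).eval y) ^ 2 := ⟨_, rfl⟩
      have e1 : ∀ y, mu p (v0 + t • w, y) = ∏ i ∈ Finset.range p, f (wi i (v0 + t • w, y)) := by
        intro y
        rw [hf]
        rfl
      rw [e1, e1]
      simp only [wi_shift]
      have e2 : (∏ i ∈ Finset.range p, f (wi (i + 1) (v0 + t • w, z))) * f (wi 0 (v0 + t • w, z)) =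
          (∏ i ∈ Finset.range p, f (wi i (v0 + t • w, z))) * f (wi p (v0 + t • w, z)) :=
        (Finset.prod_range_succ' (fun i => f (wi i (v0 + t • w, z))) p).symm.trans
          (Finset.prod_range_succ (fun i => f (wi i (v0 + t • w, z))) p)
      rw [hp0] at e2
      have e3 : f (wi 0 (v0 + t • w, z)) ≠ 0 := by
        intro e4
        have e5 : mu p (v0 + t • w, z) = 0 := by
          rw [e1]
          exact Finset.prod_eq_zero (Finset.mem_range.2 hp) e4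
        have h4' : 1 ≤ ‖mu p (v0 + t • w, z)‖ := h4
        rw [e5, norm_zero] at h4'
        linarith
      exact mul_right_cancel₀ e3 e2
    rw [h6]
    exact h4
  · intro i hi
    show ‖wi i (v0 + t • w, wi 1 (v0 + t • w, z))‖ ≤ R
    rw [wi_shift]
    rcases Nat.lt_or_ge i p with h6 | h6
    · exact h5 _ (by omega)
    · have h7 : i = p := by omega
      rw [h7, hp1]
      exact h5 _ hp

theorem ks_eq {v0 w : E d} {r R : ℝ}
    (hne : ∀ t : ℂ, ‖t‖ ≤ r → ∀ p : ℕ, 0 < p → ∀ x m, Cyc (pol (v0 + t • w).1) (pol (v0 + t • w).2) p x m → ‖m‖ ≠ 1)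
    (hR : ∀ t : ℂ, ‖t‖ ≤ r → ∀ p : ℕ, 0 < p → ∀ x m, Cyc (pol (v0 + t • w).1) (pol (v0 + t • w).2) p x m →
      1 ≤ ‖m‖ → ∀ i, i ≤ p → ‖x i‖ ≤ R) {p1 p2 : ℕ} (hp1 : 0 < p1) (hp2 : 0 < p2) {F1 F2 : ℂ → ℂ}
    (h1 : DifferentiableOn ℂ F1 (ball 0 r)) (h2 : DifferentiableOn ℂ F2 (ball 0 r))
    (hK1 : ∀ t ∈ ball (0 : ℂ) r, (t, F1 t) ∈ KS v0 w p1 r R) (hK2 : ∀ t ∈ ball (0 : ℂ) r, (t, F2 t) ∈ KS v0 w p2 r R)
    {t1 : ℂ} (ht1 : t1 ∈ ball (0 : ℂ) r) (he : F1 t1 = F2 t1) : EqOn F1 F2 (ball 0 r) := by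
  have hp : 0 < p1 * p2 := Nat.mul_pos hp1 hp2
  have a1 : ∀ t ∈ ball (0 : ℂ) r, (t, F1 t) ∈ KS v0 w (p1 * p2) r R := fun t ht => ks_mul hp1 (hK1 t ht) p2
  have a2 : ∀ t ∈ ball (0 : ℂ) r, (t, F2 t) ∈ KS v0 w (p1 * p2) r R := fun t ht => by
    rw [mul_comm]
    exact ks_mul hp2 (hK2 t ht) p1
  obtain ⟨δ, ζ, b1, b2, b3, b4, b5⟩ := ks_loc (fun t ht => hne t ht _ hp) (fun t ht => hR t ht _ hp) (a1 t1 ht1) ht1
  have c1 : ContinuousAt F1 t1 := (h1.continuousOn).continuousAt (isOpen_ball.mem_nhds ht1)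
  have c2 : ContinuousAt F2 t1 := (h2.continuousOn).continuousAt (isOpen_ball.mem_nhds ht1)
  have e1 : ∀ᶠ s in 𝓝 t1, F1 s ∈ ball (F1 t1) δ := c1.eventually_mem (ball_mem_nhds _ b1)
  have e2 : ∀ᶠ s in 𝓝 t1, F2 s ∈ ball (F1 t1) δ := by
    rw [he]
    exact c2.eventually_mem (ball_mem_nhds _ b1)
  have e3 : F1 =ᶠ[𝓝 t1] F2 := by
    filter_upwards [e1, e2, ball_mem_nhds t1 b1, isOpen_ball.mem_nhds ht1] with s hs1 hs2 hs3 hs4
    rw [b5 s hs3 (F1 s) hs1 (a1 s hs4), b5 s hs3 (F2 s) hs2 (a2 s hs4)]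
  exact (h1.analyticOnNhd isOpen_ball).eqOn_of_preconnected_of_eventuallyEq (h2.analyticOnNhd isOpen_ball)
    (convex_ball (0 : ℂ) r).isPreconnected ht1 e3

private theorem mln_ev {P : ℂ → Fin (d + 1) → ℂ} {P' : Fin (d + 1) → ℂ} {u : ℂ → ℂ} {u' : ℂ}
    (hP : HasDerivAt P P' 0) (hu : HasDerivAt u u' 0) :
    HasDerivAt (fun t => ev (P t) (u t)) (ev P' (u 0) + dev (P 0) (u 0) * u') 0 := by
  have h1 : ev P' (u 0) + dev (P 0) (u 0) * u' = ∑ i : Fin (d + 1),
      (P' i * u 0 ^ (i : ℕ) + P 0 i * (((i : ℕ) : ℂ) * u 0 ^ ((i : ℕ) - 1) * u')) := by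
    unfold ev dev
    rw [Finset.sum_add_distrib, Finset.sum_mul]
    congr 1
    refine Finset.sum_congr rfl fun i _ => ?_
    ring
  rw [h1]
  unfold ev
  apply HasDerivAt.fun_sum
  intro i _
  exact (hasDerivAt_pi.1 hP i).mul (hu.pow (i : ℕ))

/-- **the motions** -/
theorem mot_line {v0 w : E d} {r R : ℝ} (hr : 0 < r)
    (hcop : ∀ t : ℂ, ‖t‖ ≤ r → IsCoprime (pol (v0 + t • w).1) (pol (v0 + t • w).2))
    (hne : ∀ t : ℂ, ‖t‖ ≤ r → ∀ p : ℕ, 0 < p → ∀ x m, Cyc (pol (v0 + t • w).1) (pol (v0 + t • w).2) p x m → ‖m‖ ≠ 1)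
    (hR : ∀ t : ℂ, ‖t‖ ≤ r → ∀ p : ℕ, 0 < p → ∀ x m, Cyc (pol (v0 + t • w).1) (pol (v0 + t • w).2) p x m →
      1 ≤ ‖m‖ → ∀ i, i ≤ p → ‖x i‖ ≤ R) :
    ∃ F : ℂ → ℂ → ℂ, (∀ x ∈ PP v0, DifferentiableOn ℂ (F x) (ball 0 r) ∧ F x 0 = x ∧
        (∀ t ∈ ball (0 : ℂ) r, ‖F x t‖ ≤ R) ∧
        deriv (F (gg (pol v0.1) (pol v0.2) x)) 0 = dg (pol v0.1) (pol v0.2) x * deriv (F x) 0 + xi v0 w x) ∧
      ∀ x ∈ PP v0, ∀ y ∈ PP v0, x ≠ y → ∀ t ∈ ball (0 : ℂ) r, F x t ≠ F y t := by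
  have e0 : v0 + (0 : ℂ) • w = v0 := by rw [zero_smul, add_zero]
  have h0r : (0 : ℂ) ∈ ball (0 : ℂ) r := mem_ball_self hr
  -- selections
  have hsel : ∀ x : ℂ, ∃ F : ℂ → ℂ, x ∈ PP v0 → DifferentiableOn ℂ F (ball 0 r) ∧ F 0 = x ∧
      ∃ p : ℕ, 0 < p ∧ ∀ t ∈ ball (0 : ℂ) r, (t, F t) ∈ KS v0 w p r R := by
    intro x
    by_cases hx : x ∈ PP v0
    · obtain ⟨p, y, m, hp, hc, hm, hy⟩ := hx
      obtain ⟨g1, g2, g3⟩ := cyc_wi hc
      have hwx : ∀ j, j ≤ p → wi j (v0, y 0) = y j := by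
        intro j
        induction j with
        | zero => intro _; rfl
        | succ j ih =>
          intro hj
          have h1 := ih (by omega)
          have h2 := hc.step j (by omega)
          show (pol v0.1).eval (wi j (v0, y 0)) / (pol v0.2).eval (wi j (v0, y 0)) = y (j + 1)
          rw [h1, h2]
      have hz : ((0 : ℂ), y 0) ∈ KS v0 w p r R := by
        refine ⟨?_, ?_, ?_, ?_, ?_⟩
        · rw [norm_zero]; exact hr.le
        · show (v0 + (0 : ℂ) • w, y 0) ∈ (Gp p : Set (E d × ℂ))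
          rw [e0]; exact g1
        · show wi p (v0 + (0 : ℂ) • w, y 0) = y 0
          rw [e0]; exact g2
        · show 1 ≤ ‖mu p (v0 + (0 : ℂ) • w, y 0)‖
          rw [e0, g3]; exact hm
        · intro i hi
          show ‖wi i (v0 + (0 : ℂ) • w, y 0)‖ ≤ R
          rw [e0, hwx i hi]
          exact hR 0 (by rw [norm_zero]; exact hr.le) p hp y m (by rw [e0]; exact hc) hm i hi
      obtain ⟨F, hF, hF0, hFK⟩ := ks_sel hr hcop (fun t ht => hne t ht p hp) (fun t ht => hR t ht p hp) hz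
      exact ⟨F, fun _ => ⟨hF, hF0.trans hy, p, hp, hFK⟩⟩
    · exact ⟨fun _ => 0, fun h => absurd h hx⟩
  choose F hF using hsel
  have hgP : ∀ x ∈ PP v0, gg (pol v0.1) (pol v0.2) x ∈ PP v0 := by
    intro x hx
    obtain ⟨hd, h0, p, hp, hK⟩ := hF x hx
    have h1 := ks_shift hp (hK 0 h0r)
    obtain ⟨-, k2, k3, k4, -⟩ := h1
    have h2 : wi 1 (v0 + (0 : ℂ) • w, F x 0) = gg (pol v0.1) (pol v0.2) x := by
      rw [e0, h0]
      rfl
    have k2' : (v0, gg (pol v0.1) (pol v0.2) x) ∈ Gp p := by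
      have := k2
      rw [h2, e0] at this
      exact this
    have k3' : wi p (v0, gg (pol v0.1) (pol v0.2) x) = gg (pol v0.1) (pol v0.2) x := by
      have := k3
      rw [h2, e0] at this
      exact this
    have k4' : 1 ≤ ‖mu p (v0, gg (pol v0.1) (pol v0.2) x)‖ := by
      have := k4
      rw [h2, e0] at this
      exact this
    exact ⟨p, _, _, hp, wi_cyc k2' k3', k4', rfl⟩
  refine ⟨F, fun x hx => ?_, fun x hx y hy hxy t ht he => ?_⟩
  · obtain ⟨hd, h0, p, hp, hK⟩ := hF x hx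
    obtain ⟨hd', h0', p', hp', hK'⟩ := hF _ (hgP x hx)
    refine ⟨hd, h0, fun t ht => (hK t ht).2.2.2.2 0 (Nat.zero_le _), ?_⟩
    obtain ⟨W, hW⟩ : ∃ W : ℂ → ℂ, W = fun t => wi 1 (v0 + t • w, F x t) := ⟨_, rfl⟩
    have hWd : DifferentiableOn ℂ W (ball 0 r) := by
      intro t ht
      have hG : (v0 + t • w, F x t) ∈ (Gp 1 : Set (E d × ℂ)) := fun j hj => (hK t ht).2.1 j (by omega)
      have h1 := (wi_an 1 hG).differentiableAt
      have h2 : DifferentiableAt ℂ (fun t : ℂ => ((v0 + t • w, F x t) : E d × ℂ)) t :=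
        ((differentiableAt_const _).add (differentiableAt_id.smul_const w)).prodMk
          (hd.differentiableAt (isOpen_ball.mem_nhds ht))
      rw [hW]
      exact (DifferentiableAt.comp t h1 h2).differentiableWithinAt
    have hWK : ∀ t ∈ ball (0 : ℂ) r, (t, W t) ∈ KS v0 w p r R := by
      intro t ht
      rw [hW]
      exact ks_shift hp (hK t ht)
    have hW0 : W 0 = F (gg (pol v0.1) (pol v0.2) x) 0 := by
      rw [h0', hW]
      show wi 1 (v0 + (0 : ℂ) • w, F x 0) = _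
      rw [e0, h0]
      rfl
    have hE := ks_eq hne hR hp hp' hWd hd' hWK hK' h0r hW0
    have h1 : HasDerivAt (F x) (deriv (F x) 0) 0 := (hd.differentiableAt (isOpen_ball.mem_nhds h0r)).hasDerivAt
    have hv : HasDerivAt (fun t : ℂ => v0 + t • w) w 0 := by
      have h2 := ((hasDerivAt_id (0 : ℂ)).smul_const w).const_add v0
      rwa [one_smul] at h2
    have h3 := mln_ev hv.fst h1
    have h4 := mln_ev hv.snd h1
    have hQ' : ev v0.2 x ≠ 0 := by
      have := (hK 0 h0r).2.1 0 hp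
      rw [← pol_eval, ← h0]
      have e2 : (pol (v0 + (0 : ℂ) • w).2).eval (wi 0 (v0 + (0 : ℂ) • w, F x 0)) ≠ 0 := this
      rw [e0] at e2
      exact e2
    have hQ : ev (v0 + (0 : ℂ) • w).2 (F x 0) ≠ 0 := by
      rw [e0, h0]
      exact hQ'
    have h5 := h3.div h4 hQ
    have h6 : (fun t => ev (v0 + t • w).1 (F x t) / ev (v0 + t • w).2 (F x t)) = W := by
      funext t
      rw [hW]
      show _ = (pol (v0 + t • w).1).eval (wi 0 (v0 + t • w, F x t)) /
        (pol (v0 + t • w).2).eval (wi 0 (v0 + t • w, F x t))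
      rw [pol_eval, pol_eval]
      rfl
    have h6' : F (gg (pol v0.1) (pol v0.2) x) =ᶠ[𝓝 0] fun t => ev (v0 + t • w).1 (F x t) / ev (v0 + t • w).2 (F x t) := by
      rw [h6]
      filter_upwards [isOpen_ball.mem_nhds h0r] with t ht
      exact (hE ht).symm
    have h7 := h5.congr_of_eventuallyEq h6'
    rw [h7.deriv, e0, h0, Pool.Agent.H64.NC.dg_wv]
    unfold wv xi
    field_simp
    ring
  · obtain ⟨hd, h0, p, hp, hK⟩ := hF x hx
    obtain ⟨hd', h0', p', hp', hK'⟩ := hF y hy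
    have hE := ks_eq hne hR hp hp' hd hd' hK hK' ht he
    apply hxy
    rw [← h0, ← h0']
    exact hE h0r

end Pool.Agent.H83.UP
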