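import Pool.Agent.H83.UP.PD
import Pool.Agent.H31.NS.PFI
import Pool.Agent.H43.UP.PfS
import Pool.Agent.H3.NC.KIN
import Pool.Agent.H3.NC.BRN

/-!
# [H83 UP KP1] THEOREM UP (MP_8f2e1c_an): the kernel `1 / (w - x)` and the Lagrange identity, Julia set not the sphere

`qq x w = 1 / (w - x)`. `LgP D a b w η`: the Lagrange identity at `w`. `ZV a b (NJ J δ0)` (H18/UP/Defs): the backward orbits of the `δ0`-neighbourhood of `J`.
`z_meas`: `NJ J δ0` is open, `pre a b` of a measurable set is measurable (`measurable` of `gg`, H61/TT/Area, or `pre` of an open set is open). `z_pre`: `pre (⋃ pre^[k] U) ⊆ ⋃ pre^[k+1] U` (`Function.iterate_succ_apply'`). `z_bd`: `z ∈ pre^[k] NJ` gives `rat^[k] z = w` with `w ∈ NJ J δ0` (lemmas of H3/NC/BRN or H57/CP, e.g. `mem_pre`, `g_rat`): `NS.bd`. `z_ball`: `k = 0`.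
`lgp_ae`: `NS.lg` for the regular values (all but finitely many: `reg_finite`): the left side is `dg z * pf a b (qq z) x` (`pf` is a finite sum).
`qq_int`: `1 / (w - x)` is locally integrable in the plane (see `L1N` of H3/NC or `ka_int` of H1/PU for the integrability), so integrable on bounded measurable sets.
`pfq_int`: for `w ∈ Z` the points `y ∈ fs a b w` are in `pre a b Z ⊆ Z` (`fs_iff`, H43/UP/PfS), so `pf a b (qq x) w = pf a b (Z.indicator (qq x)) w`: `pf_int` (H31/NS/PFI).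
`hcoP`: copy of `hco` (H66/UP/KS2): `D + 1` nodes `F` with `b p ≠ 0`; `E p w = b p ^ 2 (dg p * pf (qq p) w - qq (gg p) w)` is integrable on `Z` and equals `η.eval p` if `LgP D a b w η` and `gg p ≠ w`. `h j w = ∑_(p ∈ F) (Lagrange.basis F id p).coeff j * E p w`.
-/

set_option autoImplicit false

open Filter Topology Polynomial Metric Set MeasureTheory

namespace Pool.Agent.H83.UP

open Pool.Agent.H61.TT Pool.Agent.H57.CP Pool.Agent.H3.NC Pool.Agent.H78.NS Pool.Agent.H31.NS Pool.Agent.H18.UP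

variable {d D : ℕ} {a b : Polynomial ℂ} {J : Set ℂ} {δ0 R0 : ℝ}

/-- the kernel -/
noncomputable def qq (x w : ℂ) : ℂ := 1 / (w - x)

/-- the Lagrange identity at `w` -/
def LgP (D : ℕ) (a b : Polynomial ℂ) (w : ℂ) (η : Polynomial ℂ) : Prop := η.natDegree ≤ D ∧ ∀ z : ℂ, b.eval z ≠ 0 → gg a b z ≠ w →
  dg a b z * pf a b (qq z) w = qq (gg a b z) w + η.eval z / b.eval z ^ 2

private theorem kp_nj : IsOpen (NJ J δ0) := by
  have h1 : NJ J δ0 = ⋃ y ∈ J, ball y δ0 := by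
    ext w
    simp only [NJ, mem_setOf_eq, mem_iUnion, exists_prop]
  rw [h1]
  exact isOpen_biUnion fun _ _ => isOpen_ball

private theorem kp_meas (h : NS d D a b J δ0 R0) (k : ℕ) : MeasurableSet ((pre a b)^[k] (NJ J δ0)) := by
  have _h := h
  induction k with
  | zero => exact kp_nj.measurableSet
  | succ k ih =>
    rw [Function.iterate_succ_apply']
    exact measurableSet_pre ih

theorem z_meas (h : NS d D a b J δ0 R0) : MeasurableSet (ZV a b (NJ J δ0)) := by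
  unfold ZV
  exact MeasurableSet.iUnion fun k => kp_meas h k

theorem z_pre : pre a b (ZV a b (NJ J δ0)) ⊆ ZV a b (NJ J δ0) := by
  intro x hx
  unfold ZV at hx ⊢
  obtain ⟨h1, h2⟩ : b.eval x ≠ 0 ∧ gg a b x ∈ ⋃ k : ℕ, (pre a b)^[k] (NJ J δ0) := hx
  obtain ⟨k, hk⟩ := mem_iUnion.1 h2
  refine mem_iUnion.2 ⟨k + 1, ?_⟩
  rw [Function.iterate_succ_apply']
  exact ⟨h1, hk⟩

private theorem kp_rat {z : ℂ} (k : ℕ) (hz : ∀ i < k, b.eval ((gg a b)^[i] z) ≠ 0) :
    (Pool.Agent.H44.Fatou.rat a b)^[k] (z : OnePoint ℂ) = (((gg a b)^[k] z : ℂ) : OnePoint ℂ) := by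
  induction k with
  | zero => rfl
  | succ k ih =>
    rw [Function.iterate_succ_apply', ih fun i hi => hz i (by omega), Function.iterate_succ_apply',
      Pool.Agent.H44.Fatou.rat_coe_of_ne (hz k (by omega))]
    rfl

theorem z_bd (h : NS d D a b J δ0 R0) : ∀ z ∈ ZV a b (NJ J δ0), ‖z‖ ≤ R0 := by
  intro z hz
  unfold ZV at hz
  obtain ⟨k, hk⟩ := mem_iUnion.1 hz
  obtain ⟨h1, y, hy, h2⟩ := mem_pre.1 hk
  obtain ⟨z', hz', hR⟩ := h.bd k (z : OnePoint ℂ) ⟨y, hy, _, h2, kp_rat k h1⟩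
  rw [OnePoint.coe_injective hz']
  exact hR

theorem z_ball {c : ℂ} (hc : c ∈ J) : ball c δ0 ⊆ ZV a b (NJ J δ0) := by
  intro w hw
  unfold ZV
  exact mem_iUnion.2 ⟨0, ⟨c, hc, hw⟩⟩

theorem lgp_ae (h : NS d D a b J δ0 R0) : ∀ᵐ w : ℂ, ∃ η : Polynomial ℂ, LgP D a b w η := by
  filter_upwards [compl_mem_ae_iff.2 ((reg_finite h.rt).measure_zero volume)] with w hw
  have hr : RegV d a b w := not_not.1 hw
  obtain ⟨η, hη, hl⟩ := h.lg w hr
  refine ⟨η, hη, fun z hz hne => ?_⟩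
  have h1 := hl z hz hne
  show dg a b z * pf a b (qq z) w = 1 / (w - gg a b z) + η.eval z / b.eval z ^ 2
  rw [← h1]
  unfold pf
  rw [Finset.mul_sum]
  refine Finset.sum_congr rfl fun y _ => ?_
  show dg a b z * (1 / (y - z) / dg a b y ^ 2) = _
  rw [div_div, mul_one_div]

private theorem qq_meas (x : ℂ) : Measurable (qq x) := by
  unfold qq
  fun_prop

theorem qq_int {Z : Set ℂ} {R : ℝ} (hZm : MeasurableSet Z) (hZ : ∀ z ∈ Z, ‖z‖ ≤ R) (x : ℂ) : IntegrableOn (qq x) Z := by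
  have _h := hZm
  refine ⟨(qq_meas x).aestronglyMeasurable, ?_⟩
  have hsub : Z ⊆ ball (0 : ℂ) (|R| + 1) := by
    intro z hz
    rw [mem_ball_zero_iff]
    have h1 := hZ z hz
    have h2 := le_abs_self R
    linarith
  have h1 := kin_ball x (δ := |R| + 1) (by positivity)
  have h2 : ∫⁻ w in Z, ‖qq x w‖ₑ ≤ ∫⁻ w in ball (0 : ℂ) (|R| + 1), ‖(w - x)⁻¹‖ₑ := by
    refine (lintegral_mono_set hsub).trans (le_of_eq ?_)
    refine lintegral_congr fun w => ?_
    unfold qq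
    rw [one_div]
  exact (h2.trans h1).trans_lt ENNReal.ofReal_lt_top

theorem pfq_int (h : RatD d a b) {Z : Set ℂ} {R : ℝ} (hZm : MeasurableSet Z) (hZ : ∀ z ∈ Z, ‖z‖ ≤ R) (hp : pre a b Z ⊆ Z) (x : ℂ) :
    IntegrableOn (pf a b (qq x)) Z := by
  have h1 := (pf_int h ((qq_meas x).indicator hZm) ((integrable_indicator_iff hZm).2 (qq_int hZm hZ x))).1
  refine h1.integrableOn.congr_fun (fun w hw => ?_) hZm
  unfold pf
  refine Finset.sum_congr rfl fun y hy => ?_
  obtain ⟨h2, h3⟩ := (Pool.Agent.H43.UP.fs_iff h).1 hy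
  have h4 : y ∈ Z := hp ⟨h2, h3 ▸ hw⟩
  rw [indicator_of_mem h4]

theorem hcoP (h : NS d D a b J δ0 R0) {Z : Set ℂ} {R : ℝ} (hZm : MeasurableSet Z) (hZ : ∀ z ∈ Z, ‖z‖ ≤ R)
    (hp : pre a b Z ⊆ Z) : ∃ hh : ℕ → ℂ → ℂ, (∀ j, IntegrableOn (hh j) Z) ∧
      ∀ᵐ w : ℂ, LgP D a b w (∑ j ∈ Finset.range (D + 1), C (hh j w) * X ^ j) := by
  have hb : b ≠ 0 := by
    intro h0
    have h1 := h.rt.cop
    rw [h0] at h1
    have h2 := isCoprime_zero_right.1 h1
    have h3 := natDegree_eq_zero_of_isUnit h2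
    have h4 := h.rt.deg
    rw [h0, h3, natDegree_zero] at h4
    have h5 := h.rt.hd
    simp at h4
    omega
  obtain ⟨F, hF, hFc⟩ := (b.roots.toFinset.finite_toSet).infinite_compl.exists_subset_card_eq (D + 1)
  have hFb : ∀ p ∈ F, b.eval p ≠ 0 := by
    intro p hp1 hp2
    refine hF hp1 ?_
    rw [Finset.mem_coe, Multiset.mem_toFinset, mem_roots hb]
    exact hp2
  have hinj : Set.InjOn (id : ℂ → ℂ) (F : Set ℂ) := Function.injective_id.injOn
  obtain ⟨E, hE⟩ : ∃ E : ℂ → ℂ → ℂ, E = fun p x => b.eval p ^ 2 * (dg a b p * pf a b (qq p) x -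
      qq (gg a b p) x) := ⟨_, rfl⟩
  have hEi : ∀ p, IntegrableOn (E p) Z := by
    intro p
    rw [hE]
    exact (((pfq_int h.rt hZm hZ hp p).const_mul _).sub (qq_int hZm hZ _)).const_mul _
  have hEv : ∀ (x : ℂ) (η : Polynomial ℂ), LgP D a b x η → (∀ p ∈ F, gg a b p ≠ x) → ∀ p ∈ F, η.eval p = E p x := by
    intro x η hη hx p hp1
    have h1 := hη.2 p (hFb p hp1) (hx p hp1)
    have h2 := hFb p hp1
    rw [hE]
    simp only
    rw [h1, add_sub_cancel_left]
    field_simp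
  refine ⟨fun j w => ∑ p ∈ F, (Lagrange.basis F id p).coeff j * E p w, fun j => ?_, ?_⟩
  · exact integrable_finsetSum _ fun p _ => (hEi p).const_mul _
  · have hf1 : ((gg a b) '' (F : Set ℂ)).Finite := (Finset.finite_toSet _).image _
    filter_upwards [lgp_ae h, compl_mem_ae_iff.2 (hf1.measure_zero volume)] with x hx2 hx3
    obtain ⟨η, hη⟩ := hx2
    have hx4 : ∀ p ∈ F, gg a b p ≠ x := fun p hp1 hpx => hx3 ⟨p, hp1, hpx⟩
    have h1 : η.degree < (F.card : WithBot ℕ) := by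
      rw [hFc]
      refine lt_of_le_of_lt degree_le_natDegree ?_
      exact_mod_cast Nat.lt_succ_of_le hη.1
    have h2 := Lagrange.eq_interpolate (v := id) hinj h1
    rw [Lagrange.interpolate_apply] at h2
    have h3 : ∀ j, η.coeff j = ∑ p ∈ F, (Lagrange.basis F id p).coeff j * E p x := by
      intro j
      conv_lhs => rw [h2]
      rw [finsetSum_coeff]
      refine Finset.sum_congr rfl fun p hp1 => ?_
      rw [coeff_C_mul, mul_comm]
      congr 1
      exact hEv x η hη hx4 p hp1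
    have h4 : ∑ j ∈ Finset.range (D + 1), C (∑ p ∈ F, (Lagrange.basis F id p).coeff j * E p x) * X ^ j = η := by
      conv_rhs => rw [η.as_sum_range' (D + 1) (Nat.lt_succ_of_le hη.1)]
      refine Finset.sum_congr rfl fun j _ => ?_
      rw [← h3 j, C_mul_X_pow_eq_monomial]
    rw [h4]
    exact hη

end Pool.Agent.H83.UP
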