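import Pool.Agent.H91.CS.MBLO
import Pool.Agent.H91.CS.MNET

/-!
# [H83 UP LLG] THEOREM UP (MP_8f2e1c_an): Landau's theorem with the logarithm

`llg`: a holomorphic function `g` on `ball 0 r` without the values `0`, `1` satisfies `‖g' 0‖ ≤ (C / r) ‖g 0‖ (1 + |log ‖g 0‖|)`.  PROOF: as `landau` (H91/CS/MLAN).
-/

set_option autoImplicit false

open Metric Set Filter Topology

namespace Pool.Agent.H83.UP

open Pool.Agent.H91.CS (bloch net)

private theorem lan_log {u : ℂ → ℂ} (hu : DifferentiableOn ℂ u (ball 0 1))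
    (h0 : ∀ z ∈ ball (0 : ℂ) 1, u z ≠ 0) :
    ∃ l : ℂ → ℂ, DifferentiableOn ℂ l (ball 0 1) ∧ l 0 = Complex.log (u 0) ∧
      ∀ z ∈ ball (0 : ℂ) 1, Complex.exp (l z) = u z := by
  have hz : (0 : ℂ) ∈ ball (0 : ℂ) 1 := mem_ball_self one_pos
  have hf : DifferentiableOn ℂ (fun z => deriv u z / u z) (ball 0 1) :=
    (hu.deriv isOpen_ball).div hu h0
  obtain ⟨F, hF0, hF⟩ := hf.isExactOn_ball.with_val_at 0 (Complex.log (u 0))
  have hw : ∀ z ∈ ball (0 : ℂ) 1,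
      HasDerivAt (fun z => u z * Complex.exp (-(F z))) 0 z := by
    intro z hzb
    have h1 : HasDerivAt u (deriv u z) z :=
      (hu.differentiableAt (isOpen_ball.mem_nhds hzb)).hasDerivAt
    have h2 := h1.mul (hF z hzb).neg.cexp
    refine h2.congr_deriv ?_
    have := h0 z hzb
    field_simp
    ring
  have hc : ∀ z ∈ ball (0 : ℂ) 1, u z * Complex.exp (-(F z)) = 1 := by
    intro z hzb
    have h1 : u z * Complex.exp (-(F z)) = u 0 * Complex.exp (-(F 0)) :=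
      isOpen_ball.is_const_of_deriv_eq_zero (convex_ball (0 : ℂ) 1).isPreconnected
        (fun z hz => (hw z hz).differentiableAt.differentiableWithinAt)
        (fun z hz => (hw z hz).deriv) hzb hz
    rw [h1, hF0, Complex.exp_neg, Complex.exp_log (h0 0 hz)]
    exact mul_inv_cancel₀ (h0 0 hz)
  refine ⟨F, fun z hz => (hF z hz).differentiableAt.differentiableWithinAt, hF0, ?_⟩
  intro z hzb
  have h1 := hc z hzb
  rw [Complex.exp_neg] at h1
  have h2 := Complex.exp_ne_zero (F z)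
  field_simp at h1
  exact h1.symm

theorem llg1 {g : ℂ → ℂ} (hg : DifferentiableOn ℂ g (ball 0 1))
    (hg01 : ∀ z ∈ ball (0 : ℂ) 1, g z ≠ 0 ∧ g z ≠ 1) : ‖deriv g 0‖ ≤ 5760 * (‖g 0‖ * (1 + |Real.log ‖g 0‖|)) := by
  have hz : (0 : ℂ) ∈ ball (0 : ℂ) 1 := mem_ball_self one_pos
  have hpi : (Real.pi : ℂ) ≠ 0 := by exact_mod_cast Real.pi_ne_zero
  have hpp := Real.pi_pos
  have h2pi : (2 * (Real.pi : ℂ) * Complex.I) ≠ 0 :=
    mul_ne_zero (mul_ne_zero two_ne_zero hpi) Complex.I_ne_zero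
  obtain ⟨l, hl, hl0, hle⟩ := lan_log hg fun z hz => (hg01 z hz).1
  obtain ⟨h, hh⟩ : ∃ h : ℂ → ℂ, h = fun z => l z / (2 * (Real.pi : ℂ) * Complex.I) := ⟨_, rfl⟩
  have hhd : DifferentiableOn ℂ h (ball 0 1) := by
    rw [hh]
    exact hl.div_const _
  have hlh : ∀ z, l z = 2 * (Real.pi : ℂ) * Complex.I * h z := by
    intro z
    rw [hh]
    field_simp
  have hint : ∀ z ∈ ball (0 : ℂ) 1, ∀ k : ℤ, h z ≠ k := by
    intro z hzb k hk
    apply (hg01 z hzb).2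
    rw [← hle z hzb, hlh, hk, mul_comm]
    exact Complex.exp_int_mul_two_pi_mul_I k
  obtain ⟨l1, hl1, _, hl1e⟩ := lan_log hhd fun z hz => by
    have := hint z hz 0
    simpa using this
  obtain ⟨l2, hl2, _, hl2e⟩ := lan_log (hhd.sub_const 1) fun z hz => by
    have := hint z hz 1
    rw [Int.cast_one] at this
    exact sub_ne_zero.mpr this
  obtain ⟨s, hs⟩ : ∃ s : ℂ → ℂ, s = fun z => Complex.exp (l1 z / 2) := ⟨_, rfl⟩
  obtain ⟨t, ht⟩ : ∃ t : ℂ → ℂ, t = fun z => Complex.exp (l2 z / 2) := ⟨_, rfl⟩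
  have hss : ∀ z ∈ ball (0 : ℂ) 1, s z ^ 2 = h z := by
    intro z hzb
    rw [hs, ← hl1e z hzb]
    simp only
    rw [← Complex.exp_nat_mul]
    congr 1
    push_cast
    ring
  have htt : ∀ z ∈ ball (0 : ℂ) 1, t z ^ 2 = h z - 1 := by
    intro z hzb
    rw [ht, ← hl2e z hzb]
    simp only
    rw [← Complex.exp_nat_mul]
    congr 1
    push_cast
    ring
  have hsd : DifferentiableOn ℂ s (ball 0 1) := by
    rw [hs]
    exact (hl1.div_const 2).cexp
  have htd : DifferentiableOn ℂ t (ball 0 1) := by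
    rw [ht]
    exact (hl2.div_const 2).cexp
  have hst : ∀ z ∈ ball (0 : ℂ) 1, (s z - t z) * (s z + t z) = 1 := by
    intro z hzb
    linear_combination hss z hzb - htt z hzb
  have hst0 : ∀ z ∈ ball (0 : ℂ) 1, s z - t z ≠ 0 := by
    intro z hzb h0
    have := hst z hzb
    rw [h0, zero_mul] at this
    exact zero_ne_one this
  obtain ⟨v, hv, _, hve⟩ := lan_log (hsd.sub htd) hst0
  have hve : ∀ z ∈ ball (0 : ℂ) 1, Complex.exp (v z) = s z - t z := hve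
  have hven : ∀ z ∈ ball (0 : ℂ) 1, Complex.exp (-(v z)) = s z + t z := by
    intro z hzb
    rw [Complex.exp_neg, hve z hzb]
    exact inv_eq_of_mul_eq_one_right (hst z hzb)
  have hcosh : ∀ z ∈ ball (0 : ℂ) 1, Complex.cosh (v z) = s z := by
    intro z hzb
    rw [Complex.cosh, hve z hzb, hven z hzb]
    ring
  have hsinh : ∀ z ∈ ball (0 : ℂ) 1, Complex.sinh (v z) = -(t z) := by
    intro z hzb
    rw [Complex.sinh, hve z hzb, hven z hzb]
    ring
  have hhc : ∀ z ∈ ball (0 : ℂ) 1, h z = Complex.cosh (v z) ^ 2 := by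
    intro z hzb
    rw [hcosh z hzb, hss z hzb]
  obtain ⟨w, hw⟩ := bloch hv
  have hv288 : ‖deriv v 0‖ < 288 := by
    by_contra hcon
    rw [not_lt] at hcon
    obtain ⟨v0, hv0, n, hn⟩ := net w
    obtain ⟨z, hzb, hzv⟩ := hw (ball_subset_ball (by linarith) hv0)
    apply hint z hzb n
    rw [hhc z hzb, hzv, ← hn, Complex.cosh_two_mul, Complex.sinh_sq]
    ring
  have hhe : h =ᶠ[𝓝 0] fun z => Complex.cosh (v z) ^ 2 :=
    Filter.eventuallyEq_of_mem (isOpen_ball.mem_nhds hz) hhc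
  have hvd : HasDerivAt v (deriv v 0) 0 :=
    (hv.differentiableAt (isOpen_ball.mem_nhds hz)).hasDerivAt
  have hdh : HasDerivAt h (2 * Complex.cosh (v 0) * (Complex.sinh (v 0) * deriv v 0)) 0 := by
    refine HasDerivAt.congr_of_eventuallyEq ?_ hhe
    refine (hvd.ccosh.pow 2).congr_deriv ?_
    push_cast
    ring
  have hge : g =ᶠ[𝓝 0] fun z => Complex.exp (2 * (Real.pi : ℂ) * Complex.I * h z) := by
    refine Filter.eventuallyEq_of_mem (isOpen_ball.mem_nhds hz) fun z hzb => ?_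
    rw [← hlh, hle z hzb]
  have hdg : HasDerivAt g (Complex.exp (2 * (Real.pi : ℂ) * Complex.I * h 0) *
      (2 * (Real.pi : ℂ) * Complex.I *
        (2 * Complex.cosh (v 0) * (Complex.sinh (v 0) * deriv v 0)))) 0 :=
    HasDerivAt.congr_of_eventuallyEq (hdh.const_mul _).cexp hge
  rw [hdg.deriv, ← hlh, hle 0 hz, hcosh 0 hz, hsinh 0 hz]
  simp only [norm_mul, norm_neg, Complex.norm_I, Complex.norm_real, Real.norm_eq_abs,
    abs_of_pos hpp, Complex.norm_ofNat, mul_one]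
  have hx : 0 < ‖g 0‖ := norm_pos_iff.mpr (hg01 0 hz).1
  have h1 : ‖s 0‖ ^ 2 = ‖h 0‖ := by rw [← norm_pow, hss 0 hz]
  have h2 : ‖t 0‖ ^ 2 ≤ ‖h 0‖ + 1 := by
    rw [← norm_pow, htt 0 hz]
    refine (norm_sub_le _ _).trans ?_
    rw [norm_one]
  have h3 : ‖s 0‖ * ‖t 0‖ ≤ ‖h 0‖ + 1 := by
    nlinarith [sq_nonneg (‖s 0‖ - ‖t 0‖), norm_nonneg (h 0)]
  have h4 : 2 * Real.pi * ‖h 0‖ ≤ |Real.log ‖g 0‖| + Real.pi := by
    have h5 : ‖l 0‖ = 2 * Real.pi * ‖h 0‖ := by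
      rw [hlh]
      simp only [norm_mul, Complex.norm_I, Complex.norm_real, Real.norm_eq_abs,
        abs_of_pos hpp, Complex.norm_ofNat, mul_one]
    rw [← h5, hl0]
    refine (Complex.norm_le_abs_re_add_abs_im _).trans ?_
    rw [Complex.log_re, Complex.log_im]
    have := Complex.abs_arg_le_pi (g 0)
    linarith
  have hpi4 : Real.pi < 3.15 := Real.pi_lt_d2
  have h6 : 0 ≤ ‖s 0‖ * ‖t 0‖ := by positivity
  calc ‖g 0‖ * (2 * Real.pi * (2 * ‖s 0‖ * (‖t 0‖ * ‖deriv v 0‖)))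
      = ‖g 0‖ * (2 * Real.pi * (2 * ((‖s 0‖ * ‖t 0‖) * ‖deriv v 0‖))) := by ring
    _ ≤ ‖g 0‖ * (2 * Real.pi * (2 * ((‖h 0‖ + 1) * 288))) := by
        gcongr
    _ = 576 * ‖g 0‖ * (2 * Real.pi * ‖h 0‖ + 2 * Real.pi) := by ring
    _ ≤ 576 * ‖g 0‖ * ((|Real.log ‖g 0‖| + Real.pi) + 2 * Real.pi) := by
        gcongr
    _ ≤ 5760 * (‖g 0‖ * (1 + |Real.log ‖g 0‖|)) := by
        have h7 : 3 * Real.pi ≤ 10 := by linarith
        have h8 := abs_nonneg (Real.log ‖g 0‖)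
        have h9 : 576 * ‖g 0‖ * ((|Real.log ‖g 0‖| + Real.pi) + 2 * Real.pi) ≤ 576 * ‖g 0‖ * (|Real.log ‖g 0‖| + 10) := by
          refine mul_le_mul_of_nonneg_left ?_ (by positivity)
          linarith
        nlinarith [mul_nonneg hx.le h8]

theorem llg {g : ℂ → ℂ} {r : ℝ} (hr : 0 < r) (hg : DifferentiableOn ℂ g (ball 0 r))
    (hg01 : ∀ z ∈ ball (0 : ℂ) r, g z ≠ 0 ∧ g z ≠ 1) : ‖deriv g 0‖ ≤ 5760 / r * (‖g 0‖ * (1 + |Real.log ‖g 0‖|)) := by
  have hm : ∀ z ∈ ball (0 : ℂ) 1, (r : ℂ) * z ∈ ball (0 : ℂ) r := by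
    intro z hz
    rw [mem_ball_zero_iff] at hz ⊢
    rw [norm_mul, Complex.norm_real, Real.norm_eq_abs, abs_of_pos hr]
    nlinarith
  have h1 : DifferentiableOn ℂ (fun z => g ((r : ℂ) * z)) (ball 0 1) :=
    hg.comp ((differentiableOn_id).const_mul _) hm
  have h2 := llg1 h1 fun z hz => hg01 _ (hm z hz)
  have h3 : HasDerivAt g (deriv g 0) ((r : ℂ) * 0) := by
    rw [mul_zero]
    exact (hg.differentiableAt (isOpen_ball.mem_nhds (mem_ball_self hr))).hasDerivAt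
  have h4 : HasDerivAt (fun z : ℂ => g ((r : ℂ) * z)) (deriv g 0 * ((r : ℂ) * 1)) 0 :=
    h3.comp (0 : ℂ) ((hasDerivAt_id (0 : ℂ)).const_mul _)
  rw [h4.deriv] at h2
  simp only [mul_zero, mul_one, norm_mul, Complex.norm_real, Real.norm_eq_abs, abs_of_pos hr] at h2
  rw [div_mul_eq_mul_div, le_div_iff₀ hr]
  exact h2

end Pool.Agent.H83.UP
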