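import Pool.Agent.H83.UP.PD

/-!
# [H83 UP VEX] THEOREM UP (MP_8f2e1c_an): three point estimates, extension to the closure

`T3 L C V` is the three point estimate on `L` (PD).
`mot_t3`. `V x = deriv (F x) 0`. For `x, y, z ∈ L`, `x ≠ y`, `z ≠ y`. If `x = z` the left side is `0`. Otherwise `φ t = (F x t - F y t) / (F z t - F y t)` is holomorphic on `ball 0 r` (no collisions), omits `0` (`F x t ≠ F y t`) and `1` (`F x t ≠ F z t`), `φ 0 = (x - y) / (z - y)`,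
`deriv φ 0 = ((V x - V y) (z - y) - (x - y) (V z - V y)) / (z - y) ^ 2`. `llg` (LLG): `‖deriv φ 0‖ ≤ 5760 / r * ‖φ 0‖ (1 + |log ‖φ 0‖|)`; multiply by `‖z - y‖`; `|log (‖x - y‖ / ‖z - y‖)| = |log (‖z - y‖ / ‖x - y‖)|`.
Bound: `‖V x‖ ≤ 2 R / r` (Cauchy on the sphere of radius `r / 2`; see `vel_line`, H44/CP/MVL).
`t3_ll` (log-Lipschitz): `L` bounded (`‖x‖ ≤ R`), `p1 ≠ p2` in `L`, `V` bounded by `C`: for `x ≠ y` in `L` one of the points `p1, p2` (call it `z`) has `‖z - y‖ ≥ ‖p1 - p2‖ / 2`: `‖V x - V y‖ ≤ ‖x - y‖ / ‖z - y‖ * 2 C + C ‖x - y‖ (1 + |log (‖z - y‖ / ‖x - y‖)|) ≤ C' ‖x - y‖ (1 + |log ‖x - y‖|)` (`‖z - y‖ ≤ 2 R`).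
`ext_j`: if `L` has at most one point then `J = L` (`J ⊆ closure L`), `V' = V`. Otherwise by `t3_ll` `V` is uniformly continuous on `L` (`t (1 + |log t|) → 0`), so it extends to a continuous function on `J` (`V' y0 = lim` along `𝓝[L] y0`, or `IsUniformInducing`/`uniformContinuousOn` extension; see `ext_tp`, H66/UP/Ext, for the same proof in the plane); `V' = V` on `L` (continuity of `V` at the points of `L`);
bound and three point estimate by passing to the limit (sequences in `L` tending to `x, y, z ∈ J`; both sides are continuous at `(x, y, z)` since `x ≠ y`, `z ≠ y`).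
-/

set_option autoImplicit false

open Filter Topology Polynomial Metric Set

namespace Pool.Agent.H83.UP

open Pool.Agent.H61.TT (gg dg ww)

theorem mot_t3 {a b : Polynomial ℂ} {L : Set ℂ} {η : Polynomial ℂ} {r R : ℝ} {F : ℂ → ℂ → ℂ} (h : MOT a b L η r R F) :
    (∀ x ∈ L, ‖deriv (F x) 0‖ ≤ 2 * R / r) ∧ T3 L (5760 / r) (fun x => deriv (F x) 0) := by
  have hr := h.hr
  have h0 : (0 : ℂ) ∈ ball (0 : ℂ) r := mem_ball_self hr
  have hda : ∀ x ∈ L, HasDerivAt (F x) (deriv (F x) 0) 0 := fun x hx =>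
    ((h.dif x hx).differentiableAt (isOpen_ball.mem_nhds h0)).hasDerivAt
  refine ⟨fun x hx => ?_, fun x hx y hy z hz hxy hzy => ?_⟩
  · have hsub : closedBall (0 : ℂ) (r / 2) ⊆ ball 0 r := closedBall_subset_ball (by linarith)
    have h1 : DiffContOnCl ℂ (F x) (ball 0 (r / 2)) := by
      refine ((h.dif x hx).mono hsub).diffContOnCl_ball le_rfl
    have h2 := Complex.norm_deriv_le_of_forall_mem_sphere_norm_le (by linarith : 0 < r / 2) h1
      (C := R) fun z hz => h.bdd x hx z (hsub (sphere_subset_closedBall hz))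
    refine h2.trans (le_of_eq ?_)
    field_simp
  · have hC : 0 ≤ 5760 / r := by positivity
    obtain ⟨V, hV⟩ : ∃ V : ℂ → ℂ, V = fun x => deriv (F x) 0 := ⟨_, rfl⟩
    have hVx : ∀ x, deriv (F x) 0 = V x := fun x => by rw [hV]
    simp only [hVx] at hda ⊢
    have hzy0 : z - y ≠ 0 := sub_ne_zero.2 hzy
    have hxy0 : x - y ≠ 0 := sub_ne_zero.2 hxy
    by_cases hxz : x = z
    · rw [← hxz, div_self hxy0, one_mul, sub_self, norm_zero]
      positivity
    obtain ⟨φ, hφ⟩ : ∃ φ : ℂ → ℂ, φ = fun t => (F x t - F y t) / (F z t - F y t) := ⟨_, rfl⟩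
    have hne : ∀ t ∈ ball (0 : ℂ) r, F z t - F y t ≠ 0 := fun t ht => sub_ne_zero.2 (h.col z hz y hy hzy t ht)
    have hd : DifferentiableOn ℂ φ (ball 0 r) := by
      rw [hφ]
      exact ((h.dif x hx).sub (h.dif y hy)).div ((h.dif z hz).sub (h.dif y hy)) hne
    have h01 : ∀ t ∈ ball (0 : ℂ) r, φ t ≠ 0 ∧ φ t ≠ 1 := by
      intro t ht
      rw [hφ]
      refine ⟨div_ne_zero (sub_ne_zero.2 (h.col x hx y hy hxy t ht)) (hne t ht), fun h1 => ?_⟩
      rw [div_eq_one_iff_eq (hne t ht)] at h1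
      exact h.col x hx z hz hxz t ht (sub_left_injective h1)
    have h1 := llg hr hd h01
    have hφ0 : φ 0 = (x - y) / (z - y) := by
      rw [hφ]
      simp only [h.zer x hx, h.zer y hy, h.zer z hz]
    have hdφ : HasDerivAt φ (((V x - V y) * (z - y) - (x - y) * (V z - V y)) / (z - y) ^ 2) 0 := by
      rw [hφ]
      have h2 := ((hda x hx).sub (hda y hy)).div ((hda z hz).sub (hda y hy)) (by
        simp only [Pi.sub_apply, h.zer y hy, h.zer z hz]
        exact hzy0)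
      simp only [Pi.sub_apply, h.zer x hx, h.zer y hy, h.zer z hz] at h2
      exact h2
    rw [hdφ.deriv, hφ0] at h1
    have e1 : V x - V y - (x - y) / (z - y) * (V z - V y) =
        (z - y) * (((V x - V y) * (z - y) - (x - y) * (V z - V y)) / (z - y) ^ 2) := by
      field_simp
    have hzp : 0 < ‖z - y‖ := norm_pos_iff.2 hzy0
    rw [e1, norm_mul]
    refine (mul_le_mul_of_nonneg_left h1 (norm_nonneg _)).trans (le_of_eq ?_)
    rw [norm_div]
    have e2 : |Real.log (‖x - y‖ / ‖z - y‖)| = |Real.log (‖z - y‖ / ‖x - y‖)| := by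
      rw [← inv_div ‖z - y‖ ‖x - y‖, Real.log_inv, abs_neg]
    rw [e2]
    field_simp

theorem t3_ll {L : Set ℂ} {C R : ℝ} {V : ℂ → ℂ} (hC : 0 ≤ C) (ht : T3 L C V) (hb : ∀ x ∈ L, ‖V x‖ ≤ C)
    (hR : ∀ x ∈ L, ‖x‖ ≤ R) {p1 p2 : ℂ} (h1 : p1 ∈ L) (h2 : p2 ∈ L) (h12 : p1 ≠ p2) :
    ∃ C' : ℝ, 0 ≤ C' ∧ ∀ x ∈ L, ∀ y ∈ L, x ≠ y → ‖V x - V y‖ ≤ C' * ‖x - y‖ * (1 + |Real.log ‖x - y‖|) := by
  obtain ⟨δ, hδ⟩ : ∃ δ : ℝ, δ = ‖p1 - p2‖ / 2 := ⟨_, rfl⟩
  have hδ0 : 0 < δ := by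
    rw [hδ]
    have := norm_pos_iff.2 (sub_ne_zero.2 h12)
    positivity
  obtain ⟨M, hM⟩ : ∃ M : ℝ, M = δ⁻¹ + 2 * |R| := ⟨_, rfl⟩
  have hM0 : 0 ≤ M := by rw [hM]; positivity
  refine ⟨2 * C / δ + C * (1 + M), by positivity, ?_⟩
  intro x hx y hy hxy
  obtain ⟨z, hz, hzy⟩ : ∃ z ∈ L, δ ≤ ‖z - y‖ := by
    by_cases h3 : δ ≤ ‖p1 - y‖
    · exact ⟨p1, h1, h3⟩
    · refine ⟨p2, h2, ?_⟩
      by_contra h4
      push Not at h3 h4
      have h5 : p1 - p2 = (p1 - y) - (p2 - y) := by ring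
      have h6 : ‖p1 - p2‖ ≤ ‖p1 - y‖ + ‖p2 - y‖ := by
        rw [h5]
        exact norm_sub_le _ _
      linarith
  have hzy0 : z ≠ y := by
    rintro rfl
    rw [sub_self, norm_zero] at hzy
    linarith
  have h3 := ht x hx y hy z hz hxy hzy0
  have hxyp : 0 < ‖x - y‖ := norm_pos_iff.2 (sub_ne_zero.2 hxy)
  have hzyp : 0 < ‖z - y‖ := norm_pos_iff.2 (sub_ne_zero.2 hzy0)
  have h4 : ‖z - y‖ ≤ 2 * |R| := by
    refine (norm_sub_le _ _).trans ?_
    have := hR z hz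
    have := hR y hy
    have := le_abs_self R
    linarith
  have hdp : 0 < δ⁻¹ := inv_pos.2 hδ0
  have h5 : |Real.log ‖z - y‖| ≤ M := by
    rw [abs_le, hM]
    constructor
    · have h6 := Real.log_le_sub_one_of_pos (inv_pos.2 hzyp)
      rw [Real.log_inv] at h6
      have h7 : ‖z - y‖⁻¹ ≤ δ⁻¹ := inv_anti₀ hδ0 hzy
      have := abs_nonneg R
      linarith
    · have h6 := Real.log_le_sub_one_of_pos hzyp
      linarith
  have h6 : |Real.log (‖z - y‖ / ‖x - y‖)| ≤ M + |Real.log ‖x - y‖| := by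
    rw [Real.log_div hzyp.ne' hxyp.ne']
    exact (abs_sub _ _).trans (add_le_add h5 le_rfl)
  have h7 : ‖(x - y) / (z - y) * (V z - V y)‖ ≤ ‖x - y‖ / δ * (2 * C) := by
    rw [norm_mul, norm_div]
    refine mul_le_mul ?_ ?_ (norm_nonneg _) (by positivity)
    · exact div_le_div_of_nonneg_left hxyp.le hδ0 hzy
    · refine (norm_sub_le _ _).trans ?_
      have := hb z hz
      have := hb y hy
      linarith
  have h8 : ‖V x - V y‖ ≤ ‖V x - V y - (x - y) / (z - y) * (V z - V y)‖ +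
      ‖(x - y) / (z - y) * (V z - V y)‖ := by
    have h9 : V x - V y = (V x - V y - (x - y) / (z - y) * (V z - V y)) +
      (x - y) / (z - y) * (V z - V y) := by ring
    nth_rewrite 1 [h9]
    exact norm_add_le _ _
  have hl0 : 0 ≤ |Real.log ‖x - y‖| := abs_nonneg _
  calc ‖V x - V y‖ ≤ _ := h8
    _ ≤ C * ‖x - y‖ * (1 + (M + |Real.log ‖x - y‖|)) + ‖x - y‖ / δ * (2 * C) := by
        refine add_le_add (h3.trans ?_) h7
        exact mul_le_mul_of_nonneg_left (by linarith) (by positivity)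
    _ = (2 * C / δ + C * (1 + M)) * ‖x - y‖ + C * ‖x - y‖ * |Real.log ‖x - y‖| := by ring
    _ ≤ (2 * C / δ + C * (1 + M)) * ‖x - y‖ * (1 + |Real.log ‖x - y‖|) := by
        have e1 : 0 ≤ 2 * C / δ * ‖x - y‖ * |Real.log ‖x - y‖| := by positivity
        have e2 : 0 ≤ C * M * ‖x - y‖ * |Real.log ‖x - y‖| := by positivity
        nlinarith

theorem ext_j {J L : Set ℂ} {C R : ℝ} {V : ℂ → ℂ} (hLJ : L ⊆ J) (hJL : J ⊆ closure L) (hR : ∀ x ∈ J, ‖x‖ ≤ R) (hC : 0 ≤ C)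
    (ht : T3 L C V) (hb : ∀ x ∈ L, ‖V x‖ ≤ C) : ∃ V' : ℂ → ℂ, (∀ x ∈ L, V' x = V x) ∧ ContinuousOn V' J ∧
      (∀ x ∈ J, ‖V' x‖ ≤ C) ∧ T3 J C V' := by
  by_cases hsub : L.Subsingleton
  · have hJ : J = L := Subset.antisymm (by rwa [hsub.isClosed.closure_eq] at hJL) hLJ
    subst hJ
    exact ⟨V, fun x _ => rfl, hsub.continuousOn V, hb, ht⟩
  obtain ⟨p1, h1, p2, h2, h12⟩ := Set.not_subsingleton_iff.1 hsub
  obtain ⟨C', hC', h⟩ := t3_ll hC ht hb (fun x hx => hR x (hLJ hx)) h1 h2 h12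
  have hnb : ∀ y0 ∈ J, (𝓝[L] y0).NeBot := fun y0 hy0 => mem_closure_iff_nhdsWithin_neBot.1 (hJL hy0)
  have hlim : ∀ y0 ∈ J, ∃ l, Tendsto V (𝓝[L] y0) (𝓝 l) := by
    intro y0 hy0
    have := hnb y0 hy0
    rw [← cauchy_map_iff_exists_tendsto, cauchy_map_iff]
    refine ⟨this, ?_⟩
    rw [tendsto_uniformity_iff_dist_tendsto_zero]
    have hω : Continuous fun t : ℝ => C' * (|t| + |t * Real.log t|) :=
      continuous_const.mul (continuous_abs.add (continuous_abs.comp Real.continuous_mul_log))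
    have hω0 : Tendsto (fun q : ℂ × ℂ => C' * (|‖q.1 - q.2‖| + |‖q.1 - q.2‖ * Real.log ‖q.1 - q.2‖|))
        (𝓝[L] y0 ×ˢ 𝓝[L] y0) (𝓝 0) := by
      have h1 : Tendsto (fun q : ℂ × ℂ => ‖q.1 - q.2‖) (𝓝[L] y0 ×ˢ 𝓝[L] y0) (𝓝 0) := by
        have h2 : Tendsto (fun q : ℂ × ℂ => q.1 - q.2) (𝓝[L] y0 ×ˢ 𝓝[L] y0) (𝓝 (y0 - y0)) :=
          (tendsto_fst.mono_right nhdsWithin_le_nhds).sub (tendsto_snd.mono_right nhdsWithin_le_nhds)
        rw [sub_self] at h2
        have h3 := h2.norm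
        rwa [norm_zero] at h3
      have h4 := (hω.tendsto 0).comp h1
      have h5 : C' * (|(0 : ℝ)| + |(0 : ℝ) * Real.log 0|) = 0 := by simp
      rw [h5] at h4
      exact h4
    refine squeeze_zero' (Eventually.of_forall fun q => dist_nonneg) ?_ hω0
    have hb : ∀ᶠ x in 𝓝[L] y0, x ∈ L := eventually_mem_nhdsWithin (a := y0) (s := L)
    filter_upwards [hb.prod_mk hb] with q hq
    rw [dist_eq_norm]
    by_cases h5 : q.1 = q.2
    · rw [h5, sub_self, norm_zero]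
      positivity
    · refine (h _ hq.1 _ hq.2 h5).trans (le_of_eq ?_)
      rw [abs_mul, abs_of_nonneg (norm_nonneg (q.1 - q.2))]
      ring
  have hcont : ContinuousOn (extendFrom L V) J := continuousOn_extendFrom hJL hlim
  have heq : ∀ x ∈ L, extendFrom L V x = V x := by
    intro x hx
    have := hnb x (hLJ hx)
    exact tendsto_nhds_unique ((tendsto_extendFrom (hlim x (hLJ hx))).mono_left (pure_le_nhdsWithin hx))
      (tendsto_pure_nhds V x)
  have hseq : ∀ x ∈ J, ∃ u : ℕ → ℂ, (∀ n, u n ∈ L) ∧ Tendsto u atTop (𝓝 x) := fun x hx =>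
    mem_closure_iff_seq_limit.1 (hJL hx)
  have hVs : ∀ x ∈ J, ∀ u : ℕ → ℂ, (∀ n, u n ∈ L) → Tendsto u atTop (𝓝 x) →
      Tendsto (fun n => extendFrom L V (u n)) atTop (𝓝 (extendFrom L V x)) := by
    intro x hx u hu hux
    exact (hcont x hx).tendsto.comp (tendsto_nhdsWithin_iff.2 ⟨hux, Eventually.of_forall fun n => hLJ (hu n)⟩)
  refine ⟨extendFrom L V, heq, hcont, ?_, ?_⟩
  · intro x hx
    obtain ⟨a, haL, ha⟩ := hseq x hx
    refine le_of_tendsto (hVs x hx a haL ha).norm ?_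
    filter_upwards with n
    rw [heq _ (haL n)]
    exact hb _ (haL n)
  · intro x hx y hy z hz hxy hzy
    obtain ⟨a, haL, ha⟩ := hseq x hx
    obtain ⟨b, hbL, hb'⟩ := hseq y hy
    obtain ⟨c, hcL, hc⟩ := hseq z hz
    have hyx0 : x - y ≠ 0 := sub_ne_zero.2 hxy
    have hzy0 : z - y ≠ 0 := sub_ne_zero.2 hzy
    have hab : Tendsto (fun n => a n - b n) atTop (𝓝 (x - y)) := ha.sub hb'
    have hcb : Tendsto (fun n => c n - b n) atTop (𝓝 (z - y)) := hc.sub hb'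
    have hVa := hVs x hx a haL ha
    have hVb := hVs y hy b hbL hb'
    have hVc := hVs z hz c hcL hc
    have h1 := ((hVa.sub hVb).sub ((hab.div hcb hzy0).mul (hVc.sub hVb))).norm
    have h2 : Tendsto (fun n => C * ‖a n - b n‖ * (1 + |Real.log (‖c n - b n‖ / ‖a n - b n‖)|)) atTop
        (𝓝 (C * ‖x - y‖ * (1 + |Real.log (‖z - y‖ / ‖x - y‖)|))) := by
      refine (tendsto_const_nhds.mul hab.norm).mul (tendsto_const_nhds.add ?_)
      refine Tendsto.abs ?_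
      refine Tendsto.log (hcb.norm.div hab.norm (norm_ne_zero_iff.2 hyx0)) ?_
      exact div_ne_zero (norm_ne_zero_iff.2 hzy0) (norm_ne_zero_iff.2 hyx0)
    refine le_of_tendsto_of_tendsto h1 h2 ?_
    filter_upwards [hab.eventually_ne hyx0, hcb.eventually_ne hzy0] with n n4 n5
    rw [heq _ (haL n), heq _ (hbL n), heq _ (hcL n)]
    exact ht _ (haL n) _ (hbL n) _ (hcL n) (sub_ne_zero.1 n4) (sub_ne_zero.1 n5)

end Pool.Agent.H83.UP
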